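import Mathlib

set_option autoImplicit false

namespace Pool.Agent.H58.Heesch

open Metric Set

variable {m : ℕ}

/-- Euclidean space of dimension `m + 2`. -/
abbrev E (m : ℕ) := EuclideanSpace ℝ (Fin (m + 2))

noncomputable def e0 (m : ℕ) : E m := EuclideanSpace.single 0 1

noncomputable def e1 (m : ℕ) : E m := EuclideanSpace.single 1 1

lemma norm_e0 : ‖e0 m‖ = 1 := by simp [e0]

lemma norm_e1 : ‖e1 m‖ = 1 := by simp [e1]

lemma inner_e0 (x : E m) : inner ℝ (e0 m) x = x 0 := by
  simp [e0, EuclideanSpace.inner_single_left]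

lemma inner_e0' (x : E m) : inner ℝ x (e0 m) = x 0 := by
  rw [real_inner_comm, inner_e0]

lemma e0_zero : (e0 m) 0 = 1 := by simp [e0]

lemma e1_zero : (e1 m) 0 = 0 := by simp [e1]

/-- if the ends of the segment `p ± t w` (`|w| = 1`) lie in the ball of radius `r` about `c` then
`|p - c|^2 + t^2 ≤ r^2`. -/
lemma two_points {F : Type*} [NormedAddCommGroup F] [InnerProductSpace ℝ F] {c p w : F} {t r : ℝ}
    (hw : ‖w‖ = 1) (h1 : p + t • w ∈ closedBall c r) (h2 : p - t • w ∈ closedBall c r) :
    ‖p - c‖ ^ 2 + t ^ 2 ≤ r ^ 2 := by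
  rw [mem_closedBall, dist_eq_norm] at h1 h2
  have hr : 0 ≤ r := le_trans (norm_nonneg _) h1
  have e1 : ‖p + t • w - c‖ ^ 2 ≤ r ^ 2 := pow_le_pow_left₀ (norm_nonneg _) h1 2
  have e2 : ‖p - t • w - c‖ ^ 2 ≤ r ^ 2 := pow_le_pow_left₀ (norm_nonneg _) h2 2
  have h3 := parallelogram_law_with_norm ℝ (p - c) (t • w)
  have h4 : p - c + t • w = p + t • w - c := by abel
  have h5 : p - c - t • w = p - t • w - c := by abel
  rw [h4, h5, norm_smul, hw] at h3
  have h6 : ‖t‖ * 1 * (‖t‖ * 1) = t ^ 2 := by
    rw [mul_one, Real.norm_eq_abs, abs_mul_abs_self, sq]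
  nlinarith

/-- closed half ball -/
def hbar (c : E m) (r : ℝ) : Set (E m) := closedBall c r ∩ {x | c 0 ≤ x 0}

/-- open half ball -/
def hop (c : E m) (r : ℝ) : Set (E m) := ball c r ∩ {x | c 0 < x 0}

lemma continuous_coord (i : Fin (m + 2)) : Continuous (fun x : E m => x i) := by
  fun_prop

lemma isClosed_hbar (c : E m) (r : ℝ) : IsClosed (hbar c r) :=
  isClosed_closedBall.inter (isClosed_le continuous_const (continuous_coord 0))

lemma isOpen_hop (c : E m) (r : ℝ) : IsOpen (hop c r) :=
  isOpen_ball.inter (isOpen_lt continuous_const (continuous_coord 0))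

lemma hop_subset_hbar (c : E m) (r : ℝ) : hop c r ⊆ hbar c r :=
  fun _ h => ⟨ball_subset_closedBall h.1, le_of_lt (show c 0 < _ from h.2)⟩

lemma convex_hop (c : E m) (r : ℝ) : Convex ℝ (hop c r) := by
  refine (convex_ball c r).inter ?_
  intro x hx y hy a b ha hb hab
  simp only [mem_ofPred_eq] at hx hy ⊢
  have : (a • x + b • y) 0 = a * x 0 + b * y 0 := by simp
  rw [this]
  have hb' : b = 1 - a := by linarith
  subst hb'
  rcases eq_or_lt_of_le ha with h | h
  · rw [← h]
    linarith
  · nlinarith [mul_lt_mul_of_pos_left hx h, mul_le_mul_of_nonneg_left hy.le hb]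

/-- every point of the closed half ball is a limit of points of the open half ball -/
lemma hbar_subset_closure (c : E m) {r : ℝ} (hr : 0 < r) : hbar c r ⊆ closure (hop c r) := by
  intro x hx
  have hy : c + (r / 2) • e0 m ∈ hop c r := by
    constructor
    · rw [mem_ball, dist_eq_norm]
      have : c + (r / 2) • e0 m - c = (r / 2) • e0 m := by abel
      rw [this, norm_smul, norm_e0, Real.norm_eq_abs, abs_of_pos (by linarith)]
      linarith
    · simp only [mem_ofPred_eq]
      have : (c + (r / 2) • e0 m) 0 = c 0 + r / 2 := by simp [e0_zero]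
      rw [this]
      linarith
  have hseg : ∀ t : ℝ, t ∈ Ioo (0 : ℝ) 1 → (1 - t) • x + t • (c + (r / 2) • e0 m) ∈ hop c r := by
    intro t ht
    constructor
    · rw [mem_ball, dist_eq_norm]
      have h1 : (1 - t) • x + t • (c + (r / 2) • e0 m) - c =
          (1 - t) • (x - c) + t • ((r / 2) • e0 m) := by
        module
      rw [h1]
      refine lt_of_le_of_lt (norm_add_le _ _) ?_
      have hx1 : ‖x - c‖ ≤ r := by
        have := hx.1
        rwa [mem_closedBall, dist_eq_norm] at this
      rw [norm_smul, norm_smul, norm_smul, norm_e0, Real.norm_eq_abs, Real.norm_eq_abs,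
        Real.norm_eq_abs, abs_of_pos (by linarith [ht.2] : (0 : ℝ) < 1 - t), abs_of_pos ht.1,
        abs_of_pos (by linarith : (0 : ℝ) < r / 2)]
      have : (1 - t) * ‖x - c‖ ≤ (1 - t) * r := mul_le_mul_of_nonneg_left hx1 (by linarith [ht.2])
      nlinarith [ht.1, ht.2]
    · simp only [mem_ofPred_eq]
      have h2 : ((1 - t) • x + t • (c + (r / 2) • e0 m)) 0 = (1 - t) * x 0 + t * (c 0 + r / 2) := by
        simp [e0_zero]
        ring
      rw [h2]
      have hx2 : c 0 ≤ x 0 := hx.2
      have h3 : (1 - t) * c 0 ≤ (1 - t) * x 0 := mul_le_mul_of_nonneg_left hx2 (by linarith [ht.2])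
      nlinarith [ht.1, ht.2]
  have hlim : Filter.Tendsto (fun t : ℝ => (1 - t) • x + t • (c + (r / 2) • e0 m))
      (nhdsWithin 0 (Ioo 0 1)) (nhds x) := by
    have hc : Continuous (fun t : ℝ => (1 - t) • x + t • (c + (r / 2) • e0 m)) := by fun_prop
    have := hc.tendsto 0
    simp only [sub_zero, one_smul, zero_smul, add_zero] at this
    exact this.mono_left nhdsWithin_le_nhds
  have : (nhdsWithin (0 : ℝ) (Ioo 0 1)).NeBot := by
    rw [← mem_closure_iff_nhdsWithin_neBot, closure_Ioo (by norm_num)]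
    exact ⟨le_rfl, by norm_num⟩
  exact mem_closure_of_tendsto hlim (eventually_nhdsWithin_of_forall fun t ht => hseg t ht)

lemma closure_hop (c : E m) {r : ℝ} (hr : 0 < r) : closure (hop c r) = hbar c r :=
  Subset.antisymm (closure_minimal (hop_subset_hbar c r) (isClosed_hbar c r))
    (hbar_subset_closure c hr)

/-- Rigidity: an isometry mapping a closed half ball into itself fixes its axis pointwise. -/
lemma rigid (c : E m) {r : ℝ} (hr : 0 < r) (h : E m ≃ᵢ E m) (hh : ∀ x ∈ hbar c r, h x ∈ hbar c r) :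
    ∀ s : ℝ, h (c + s • e0 m) = c + s • e0 m := by
  set L := h.toRealLinearIsometryEquiv with hL
  have hLa : ∀ x, h x = L x + h 0 := by
    intro x
    rw [hL, IsometryEquiv.toRealLinearIsometryEquiv_apply]
    abel
  have hsub : ∀ x y, h (x + y) = h x + L y := by
    intro x y
    rw [hLa (x + y), hLa x, map_add]
    abel
  -- the center is fixed
  have hp : c + r • e1 m ∈ hbar c r := by
    constructor
    · rw [mem_closedBall, dist_eq_norm]
      have : c + r • e1 m - c = r • e1 m := by abel
      rw [this, norm_smul, norm_e1, Real.norm_eq_abs, abs_of_pos hr]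
      linarith
    · simp [e1_zero]
  have hq : c - r • e1 m ∈ hbar c r := by
    constructor
    · rw [mem_closedBall, dist_eq_norm]
      have : c - r • e1 m - c = -(r • e1 m) := by abel
      rw [this, norm_neg, norm_smul, norm_e1, Real.norm_eq_abs, abs_of_pos hr]
      linarith
    · simp [e1_zero]
  have h1 := (hh _ hp).1
  have h2 := (hh _ hq).1
  rw [hsub, map_smul] at h1
  rw [sub_eq_add_neg, hsub, map_neg, map_smul, ← sub_eq_add_neg] at h2
  have h3 := two_points (by rw [LinearIsometryEquiv.norm_map, norm_e1]) h1 h2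
  have hc : h c = c := by
    have : ‖h c - c‖ ^ 2 ≤ 0 := by linarith
    have : ‖h c - c‖ = 0 := by
      have h5 := sq_nonneg ‖h c - c‖
      exact pow_eq_zero_iff (two_ne_zero) |>.mp (le_antisymm this h5)
    rw [norm_eq_zero, sub_eq_zero] at this
    exact this
  -- the linear part fixes `e0`
  have hdir : ∀ y : E m, ‖y‖ ≤ r → 0 ≤ y 0 → 0 ≤ (L y) 0 := by
    intro y hy1 hy2
    have hmem : c + y ∈ hbar c r := by
      constructor
      · rw [mem_closedBall, dist_eq_norm]
        simpa using hy1
      · simp only [mem_ofPred_eq, PiLp.add_apply]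
        linarith
    have := (hh _ hmem).2
    rw [hsub, hc] at this
    simp only [mem_ofPred_eq, PiLp.add_apply] at this
    linarith
  -- let `q = L⁻¹ e0`; then `⟪q, y⟫ = (L y) 0`
  set q := L.symm (e0 m) with hqdef
  have hq1 : ∀ y, inner ℝ q y = (L y) 0 := by
    intro y
    rw [← inner_e0 (L y), hqdef, ← LinearIsometryEquiv.inner_map_map L, L.apply_symm_apply]
  have hqn : ‖q‖ = 1 := by
    rw [hqdef, LinearIsometryEquiv.norm_map, norm_e0]
  -- the component of `q` orthogonal to `e0` vanishes
  set z := q - (q 0) • e0 m with hz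
  have hz0 : z 0 = 0 := by
    rw [hz]; simp [e0_zero]
  have hzq : inner ℝ q z = ‖z‖ ^ 2 := by
    have : q = z + (q 0) • e0 m := by rw [hz]; abel
    have h6 : inner ℝ (e0 m) z = 0 := by rw [inner_e0, hz0]
    calc inner ℝ q z = inner ℝ (z + (q 0) • e0 m) z := by rw [← this]
      _ = inner ℝ z z + (q 0) * inner ℝ (e0 m) z := by
          rw [inner_add_left, inner_smul_left]; rfl
      _ = ‖z‖ ^ 2 := by rw [h6, mul_zero, add_zero, real_inner_self_eq_norm_sq]
  have hznorm : ‖z‖ = 0 := by
    by_contra hne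
    have hpos : 0 < ‖z‖ := lt_of_le_of_ne (norm_nonneg _) (Ne.symm hne)
    have h7 := hdir (-(r / ‖z‖) • z) (by
      rw [norm_smul, Real.norm_eq_abs, abs_neg, abs_of_pos (div_pos hr hpos),
        div_mul_cancel₀ _ hne]) (by
      simp [hz0])
    rw [← hq1, inner_smul_right, hzq] at h7
    have : 0 < r / ‖z‖ * ‖z‖ ^ 2 := by positivity
    nlinarith
  have hz' : q = (q 0) • e0 m := by
    rw [norm_eq_zero] at hznorm
    rw [hz, sub_eq_zero] at hznorm
    exact hznorm
  have hq0 : 0 ≤ q 0 := by
    have h8 := hdir (r • e0 m) (by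
      rw [norm_smul, norm_e0, Real.norm_eq_abs, abs_of_pos hr, mul_one]) (by
      simp [e0_zero]; linarith)
    rw [← hq1, inner_smul_right, inner_e0'] at h8
    nlinarith
  have hq0' : q 0 = 1 := by
    have h9 : ‖q‖ = |q 0| := by
      rw [hz', norm_smul, norm_e0, Real.norm_eq_abs, mul_one]
      simp [e0_zero]
    rw [hqn, abs_of_nonneg hq0] at h9
    exact h9.symm
  have hLe : L (e0 m) = e0 m := by
    have : q = e0 m := by rw [hz', hq0', one_smul]
    rw [← this, hqdef, L.apply_symm_apply, ← hqdef, this]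
  intro s
  rw [hsub, map_smul, hLe, hc]

end Pool.Agent.H58.Heesch
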