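import Mathlib

set_option autoImplicit false

namespace Pool.Agent.H58.Heesch

/-- A body of `E^n`: a compact set that equals the closure of its nonempty interior. -/
def IsBody {n : ℕ} (A : Set (EuclideanSpace ℝ (Fin n))) : Prop :=
  IsCompact A ∧ (interior A).Nonempty ∧ closure (interior A) = A

/-- `Q` is congruent to `A`: it is the image of `A` under an isometry of `E^n`. -/
def Congruent {n : ℕ} (A Q : Set (EuclideanSpace ℝ (Fin n))) : Prop :=
  ∃ g : EuclideanSpace ℝ (Fin n) ≃ᵢ EuclideanSpace ℝ (Fin n), Q = g '' A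

/-- The members of the family have pairwise disjoint interiors. -/
def InteriorsDisjoint {n : ℕ} (P : Set (Set (EuclideanSpace ℝ (Fin n)))) : Prop :=
  P.Pairwise fun X Y => Disjoint (interior X) (interior Y)

/-- A tiling of `E^n`: a countable family of bodies covering `E^n` with pairwise disjoint
interiors. -/
def IsTiling {n : ℕ} (T : Set (Set (EuclideanSpace ℝ (Fin n)))) : Prop :=
  T.Countable ∧ (∀ Q ∈ T, IsBody Q) ∧ ⋃₀ T = Set.univ ∧ InteriorsDisjoint T

/-- `A` is the prototile of a monohedral tiling. -/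
def IsPrototile {n : ℕ} (A : Set (EuclideanSpace ℝ (Fin n))) : Prop :=
  ∃ T : Set (Set (EuclideanSpace ℝ (Fin n))), IsTiling T ∧ ∀ Q ∈ T, Congruent A Q

/-- The `k`-th corona `C^k(A)` in the patch `P`: the tiles `Q` of `P` reachable from `A` by a chain
`A = c 0, c 1, ..., c m = Q` of tiles of `P` with `m ≤ k` and `c i ∩ c (i+1) ≠ ∅` for `i < m`. -/
def corona {n : ℕ} (P : Set (Set (EuclideanSpace ℝ (Fin n)))) (A : Set (EuclideanSpace ℝ (Fin n)))
    (k : ℕ) : Set (Set (EuclideanSpace ℝ (Fin n))) :=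
  {Q | ∃ (m : ℕ) (c : ℕ → Set (EuclideanSpace ℝ (Fin n))), m ≤ k ∧ c 0 = A ∧ c m = Q ∧
    (∀ i ≤ m, c i ∈ P) ∧ ∀ i < m, (c i ∩ c (i + 1)).Nonempty}

/-- `A` can be completely surrounded `k` times by congruent copies of `A`: there is a (finite)
patch `P` of congruent copies of `A` with pairwise disjoint interiors, containing `A`, such that
`|C^{j-1}(A)|` lies in the interior of `|C^j(A)|` for `j = 1, ..., k`. -/
def Surrounded {n : ℕ} (k : ℕ) (A : Set (EuclideanSpace ℝ (Fin n))) : Prop :=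
  ∃ P : Set (Set (EuclideanSpace ℝ (Fin n))), P.Finite ∧ (∀ Q ∈ P, Congruent A Q) ∧ A ∈ P ∧
    InteriorsDisjoint P ∧
    ∀ j : ℕ, 1 ≤ j → j ≤ k → ⋃₀ corona P A (j - 1) ⊆ interior (⋃₀ corona P A j)

end Pool.Agent.H58.Heesch
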