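import Mathlib
import Pool.Agent.H58.Heesch.Ball

set_option autoImplicit false

namespace Pool.Agent.H58.Heesch

open Metric Set

variable {m : ℕ}

noncomputable def lam (m : ℕ) : ℝ := (3 / 2 : ℝ) ^ ((1 : ℝ) / ((m + 2 : ℕ) : ℝ))

lemma lam_pow : (lam m) ^ (m + 2) = 3 / 2 := by
  unfold lam
  rw [← Real.rpow_natCast, ← Real.rpow_mul (by norm_num)]
  rw [one_div, inv_mul_cancel₀ (by positivity), Real.rpow_one]

lemma one_lt_lam : 1 < lam m := by
  unfold lam
  exact Real.one_lt_rpow (by norm_num) (by positivity)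

lemma lam_le : lam m ≤ 3 / 2 := by
  unfold lam
  calc (3 / 2 : ℝ) ^ ((1 : ℝ) / ((m + 2 : ℕ) : ℝ)) ≤ (3 / 2 : ℝ) ^ (1 : ℝ) := by
        apply Real.rpow_le_rpow_of_exponent_le (by norm_num)
        rw [div_le_one (by positivity)]
        push_cast
        have : (0 : ℝ) ≤ m := by positivity
        linarith
    _ = 3 / 2 := Real.rpow_one _

noncomputable def r1 : ℝ := 1 / 64
noncomputable def r2 (m : ℕ) : ℝ := lam m / 64

lemma r1_pos : 0 < r1 := by unfold r1; norm_num
lemma r2_pos : 0 < r2 m := by unfold r2; have := one_lt_lam (m := m); linarith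
lemma r1_lt_r2 : r1 < r2 m := by unfold r1 r2; have := one_lt_lam (m := m); linarith
lemma r2_lt : r2 m < 1 / 32 := by unfold r2; have := lam_le (m := m); linarith

noncomputable def c1 (m : ℕ) : E m := WithLp.toLp 2 (fun i => if i = 0 then 1 / 4 else 1 / 2)
noncomputable def c2 (m : ℕ) : E m := WithLp.toLp 2 (fun i => if i = 0 then 3 / 4 else 1 / 2)

lemma c1_zero : (c1 m) 0 = 1 / 4 := by simp [c1]
lemma c2_zero : (c2 m) 0 = 3 / 4 := by simp [c2]
lemma c1_ne {i : Fin (m + 2)} (hi : i ≠ 0) : (c1 m) i = 1 / 2 := by simp [c1, hi]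
lemma c2_ne {i : Fin (m + 2)} (hi : i ≠ 0) : (c2 m) i = 1 / 2 := by simp [c2, hi]

lemma c2_eq : c2 m = c1 m + (1 / 2 : ℝ) • e0 m := by
  ext i
  by_cases hi : i = 0
  · subst hi
    simp only [PiLp.add_apply, PiLp.smul_apply, c1_zero, c2_zero, e0_zero, smul_eq_mul]
    norm_num
  · have : (e0 m) i = 0 := by simp [e0, hi]
    simp only [PiLp.add_apply, PiLp.smul_apply, c1_ne hi, c2_ne hi, this, smul_eq_mul]
    norm_num

lemma coord_le {x y : E m} {r : ℝ} (h : x ∈ closedBall y r) (i : Fin (m + 2)) :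
    |x i - y i| ≤ r := by
  rw [mem_closedBall, dist_eq_norm] at h
  have := PiLp.norm_apply_le (x - y) i
  rw [PiLp.sub_apply, Real.norm_eq_abs] at this
  exact this.trans h

/-- closed and open unit cubes -/
def cubeC (m : ℕ) : Set (E m) := {x | ∀ i, 0 ≤ x i ∧ x i ≤ 1}
def cubeO (m : ℕ) : Set (E m) := {x | ∀ i, 0 < x i ∧ x i < 1}

lemma isClosed_cubeC : IsClosed (cubeC m) := by
  have : cubeC m = ⋂ i, {x | 0 ≤ x i ∧ x i ≤ 1} := by
    ext x; simp [cubeC]
  rw [this]
  refine isClosed_iInter fun i => ?_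
  exact (isClosed_le continuous_const (continuous_coord i)).inter
    (isClosed_le (continuous_coord i) continuous_const)

lemma isOpen_cubeO : IsOpen (cubeO m) := by
  have : cubeO m = ⋂ i, {x | 0 < x i ∧ x i < 1} := by
    ext x; simp [cubeO]
  rw [this]
  refine isOpen_iInter_of_finite fun i => ?_
  exact (isOpen_lt continuous_const (continuous_coord i)).inter
    (isOpen_lt (continuous_coord i) continuous_const)

lemma cubeO_subset : cubeO m ⊆ cubeC m := fun _ hx i => ⟨(hx i).1.le, (hx i).2.le⟩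

lemma cubeC_subset_closure : cubeC m ⊆ closure (cubeO m) := by
  intro x hx
  set p : E m := WithLp.toLp 2 (fun _ => 1 / 2) with hp
  have hpi : ∀ i, p i = 1 / 2 := fun i => by simp [hp]
  have hseg : ∀ t : ℝ, t ∈ Ioo (0 : ℝ) 1 → (1 - t) • x + t • p ∈ cubeO m := by
    intro t ht i
    have h2 : ((1 - t) • x + t • p) i = (1 - t) * x i + t * (1 / 2) := by
      simp [hpi]
    rw [h2]
    have h3 := (hx i).1
    have h4 := (hx i).2
    have h5 : 0 ≤ (1 - t) * x i := mul_nonneg (by linarith [ht.2]) h3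
    have h6 : (1 - t) * x i ≤ (1 - t) * 1 := mul_le_mul_of_nonneg_left h4 (by linarith [ht.2])
    constructor
    · linarith [ht.1]
    · linarith [ht.1]
  have hlim : Filter.Tendsto (fun t : ℝ => (1 - t) • x + t • p)
      (nhdsWithin 0 (Ioo 0 1)) (nhds x) := by
    have hc : Continuous (fun t : ℝ => (1 - t) • x + t • p) := by fun_prop
    have := hc.tendsto 0
    simp only [sub_zero, one_smul, zero_smul, add_zero] at this
    exact this.mono_left nhdsWithin_le_nhds
  have : (nhdsWithin (0 : ℝ) (Ioo 0 1)).NeBot := by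
    rw [← mem_closure_iff_nhdsWithin_neBot, closure_Ioo (by norm_num)]
    exact ⟨le_rfl, by norm_num⟩
  exact mem_closure_of_tendsto hlim (eventually_nhdsWithin_of_forall fun t ht => hseg t ht)

abbrev H1b (m : ℕ) : Set (E m) := hbar (c1 m) r1
abbrev H2b (m : ℕ) : Set (E m) := hbar (c2 m) (r2 m)
abbrev H1o (m : ℕ) : Set (E m) := hop (c1 m) r1
abbrev H2o (m : ℕ) : Set (E m) := hop (c2 m) (r2 m)

lemma H1b_coord {x : E m} (hx : x ∈ H1b m) : x 0 < 3 / 8 ∧ 1 / 4 ≤ x 0 ∧
    ∀ i, 1 / 8 < x i ∧ x i < 7 / 8 := by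
  have h : ∀ i, |x i - (c1 m) i| ≤ r1 := fun i => coord_le hx.1 i
  have h0 := abs_le.mp (h 0)
  have h0' : (c1 m) 0 ≤ x 0 := hx.2
  rw [c1_zero] at h0 h0'
  unfold r1 at h0 h
  refine ⟨by linarith [h0.2], h0', fun i => ?_⟩
  by_cases hi : i = 0
  · subst hi
    constructor <;> linarith [h0.1, h0.2]
  · have := abs_le.mp (h i)
    rw [c1_ne hi] at this
    constructor <;> linarith [this.1, this.2]

lemma H2b_coord {x : E m} (hx : x ∈ H2b m) : 3 / 4 ≤ x 0 ∧
    ∀ i, 1 / 8 < x i ∧ x i < 7 / 8 := by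
  have h : ∀ i, |x i - (c2 m) i| ≤ r2 m := fun i => coord_le hx.1 i
  have h0 := abs_le.mp (h 0)
  have h0' : (c2 m) 0 ≤ x 0 := hx.2
  have hr := r2_lt (m := m)
  rw [c2_zero] at h0 h0'
  refine ⟨h0', fun i => ?_⟩
  by_cases hi : i = 0
  · subst hi
    constructor <;> linarith [h0.1, h0.2]
  · have := abs_le.mp (h i)
    rw [c2_ne hi] at this
    constructor <;> linarith [this.1, this.2]

lemma H1b_cubeO {x : E m} (hx : x ∈ H1b m) : x ∈ cubeO m := by
  intro i
  have := (H1b_coord hx).2.2 i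
  constructor <;> linarith [this.1, this.2]

lemma H2b_cubeO {x : E m} (hx : x ∈ H2b m) : x ∈ cubeO m := by
  intro i
  have := (H2b_coord hx).2 i
  constructor <;> linarith [this.1, this.2]

lemma H_disj {x : E m} (h1 : x ∈ H1b m) (h2 : x ∈ H2b m) : False := by
  have a := (H1b_coord h1).1
  have b := (H2b_coord h2).1
  linarith

/-- the main open part of the tile -/
def S0 (m : ℕ) : Set (E m) := {x | x ∈ cubeO m ∧ x ∉ H1b m ∧ x ∉ H2b m}

/-- the open tile -/
def A0 (u v : E m) : Set (E m) := {x | x ∈ S0 m ∨ x + u ∈ H1o m ∨ x + v ∈ H2o m}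

/-- the tile -/
def AA (u v : E m) : Set (E m) :=
  {x | (x ∈ cubeC m ∧ x ∉ H1o m ∧ x ∉ H2o m) ∨ x + u ∈ H1b m ∨ x + v ∈ H2b m}

lemma isOpen_S0 : IsOpen (S0 m) :=
  isOpen_cubeO.inter (((isClosed_hbar _ _).isOpen_compl).inter ((isClosed_hbar _ _).isOpen_compl))

lemma continuous_addR (w : E m) : Continuous (fun x : E m => x + w) := by fun_prop

lemma isOpen_A0 (u v : E m) : IsOpen (A0 u v) := by
  have h1 : IsOpen {x : E m | x + u ∈ H1o m} := (isOpen_hop _ _).preimage (continuous_addR u)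
  have h2 : IsOpen {x : E m | x + v ∈ H2o m} := (isOpen_hop _ _).preimage (continuous_addR v)
  have h3 : A0 u v = S0 m ∪ ({x : E m | x + u ∈ H1o m} ∪ {x : E m | x + v ∈ H2o m}) := by
    ext x
    simp only [A0, mem_union, mem_ofPred_eq]
  rw [h3]
  exact isOpen_S0.union (h1.union h2)

lemma isClosed_AA (u v : E m) : IsClosed (AA u v) := by
  have h1 : IsClosed {x : E m | x + u ∈ H1b m} := (isClosed_hbar _ _).preimage (continuous_addR u)
  have h2 : IsClosed {x : E m | x + v ∈ H2b m} := (isClosed_hbar _ _).preimage (continuous_addR v)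
  have h3 : IsClosed ((H1o m)ᶜ) := (isOpen_hop _ _).isClosed_compl
  have h4 : IsClosed ((H2o m)ᶜ) := (isOpen_hop _ _).isClosed_compl
  have h5 : AA u v = (cubeC m ∩ ((H1o m)ᶜ ∩ (H2o m)ᶜ)) ∪
      ({x : E m | x + u ∈ H1b m} ∪ {x : E m | x + v ∈ H2b m}) := by
    ext x
    simp only [AA, mem_union, mem_inter_iff, mem_compl_iff, mem_ofPred_eq]
  rw [h5]
  exact (isClosed_cubeC.inter (h3.inter h4)).union (h1.union h2)

lemma A0_subset (u v : E m) : A0 u v ⊆ AA u v := by
  rintro x (hx | hx | hx)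
  · exact Or.inl ⟨cubeO_subset hx.1, fun h => hx.2.1 (hop_subset_hbar _ _ h),
      fun h => hx.2.2 (hop_subset_hbar _ _ h)⟩
  · exact Or.inr (Or.inl (hop_subset_hbar _ _ hx))
  · exact Or.inr (Or.inr (hop_subset_hbar _ _ hx))

/-- a boundary point of a closed half ball is a limit of points outside -/
lemma mem_closure_compl_hbar (c : E m) {r : ℝ} {x : E m} (hx : x ∈ hbar c r)
    (hx' : x ∉ hop c r) : x ∈ closure ((hbar c r)ᶜ) := by
  rw [closure_compl, mem_compl_iff]
  intro hint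
  apply hx'
  -- interior of the closed half ball is the open one
  have h1 : x ∈ interior (closedBall c r) := interior_mono inter_subset_left hint
  have h2 : x ∈ interior {x : E m | c 0 ≤ x 0} := interior_mono inter_subset_right hint
  refine ⟨?_, ?_⟩
  · rcases eq_or_ne r 0 with h0 | h0
    · exfalso
      rw [h0, closedBall_zero] at h1
      have : (interior ({c} : Set (E m))) = ∅ := interior_singleton c
      rw [this] at h1
      exact h1
    · rwa [interior_closedBall c h0] at h1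
  · by_contra hcon
    have hle : x 0 ≤ c 0 := not_lt.mp hcon
    rw [mem_interior_iff_mem_nhds, Metric.mem_nhds_iff] at h2
    obtain ⟨ε, hε, hball⟩ := h2
    have hy : x - (ε / 2) • e0 m ∈ ball x ε := by
      rw [mem_ball, dist_eq_norm]
      have : x - (ε / 2) • e0 m - x = -((ε / 2) • e0 m) := by abel
      rw [this, norm_neg, norm_smul, norm_e0, Real.norm_eq_abs, abs_of_pos (by linarith)]
      linarith
    have h3 := hball hy
    simp only [mem_ofPred_eq] at h3
    have : (x - (ε / 2) • e0 m) 0 = x 0 - ε / 2 := by simp [e0_zero]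
    rw [this] at h3
    linarith

lemma closure_A0 (u v : E m) : closure (A0 u v) = AA u v := by
  refine Subset.antisymm (closure_minimal (A0_subset u v) (isClosed_AA u v)) ?_
  have hS : ∀ x : E m, x ∈ cubeC m → x ∉ H1o m → x ∉ H2o m → x ∈ closure (S0 m) := by
    intro x hx h1 h2
    by_cases hb1 : x ∈ H1b m
    · have hO : IsOpen (cubeO m ∩ (H2b m)ᶜ) := isOpen_cubeO.inter (isClosed_hbar _ _).isOpen_compl
      have hmem : x ∈ cubeO m ∩ (H2b m)ᶜ := ⟨H1b_cubeO hb1, fun h => H_disj hb1 h⟩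
      have h3 := hO.inter_closure ⟨hmem, mem_closure_compl_hbar _ hb1 h1⟩
      refine closure_mono ?_ h3
      rintro y ⟨⟨hy1, hy2⟩, hy3⟩
      exact ⟨hy1, hy3, hy2⟩
    · by_cases hb2 : x ∈ H2b m
      · have hO : IsOpen (cubeO m ∩ (H1b m)ᶜ) :=
          isOpen_cubeO.inter (isClosed_hbar _ _).isOpen_compl
        have hmem : x ∈ cubeO m ∩ (H1b m)ᶜ := ⟨H2b_cubeO hb2, hb1⟩
        have h3 := hO.inter_closure ⟨hmem, mem_closure_compl_hbar _ hb2 h2⟩
        refine closure_mono ?_ h3
        rintro y ⟨⟨hy1, hy2⟩, hy3⟩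
        exact ⟨hy1, hy2, hy3⟩
      · have hO : IsOpen ((H1b m)ᶜ ∩ (H2b m)ᶜ) :=
          (isClosed_hbar _ _).isOpen_compl.inter (isClosed_hbar _ _).isOpen_compl
        have h3 := hO.inter_closure ⟨⟨hb1, hb2⟩, cubeC_subset_closure hx⟩
        refine closure_mono ?_ h3
        rintro y ⟨⟨hy1, hy2⟩, hy3⟩
        exact ⟨hy3, hy1, hy2⟩
  have htrans : ∀ (w : E m) (c : E m) (r : ℝ), 0 < r → ∀ x, x + w ∈ hbar c r →
      x ∈ closure {y : E m | y + w ∈ hop c r} := by
    intro w c r hr x hx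
    have h1 : x + w ∈ closure (hop c r) := hbar_subset_closure c hr hx
    have h2 : {y : E m | y + w ∈ hop c r} = (Homeomorph.addRight w) ⁻¹' (hop c r) := rfl
    rw [h2, ← Homeomorph.preimage_closure]
    exact h1
  rintro x (⟨h0, h1, h2⟩ | hx | hx)
  · exact closure_mono (fun y hy => Or.inl hy) (hS x h0 h1 h2)
  · exact closure_mono (fun y hy => Or.inr (Or.inl hy)) (htrans u _ _ r1_pos x hx)
  · exact closure_mono (fun y hy => Or.inr (Or.inr hy)) (htrans v _ _ r2_pos x hx)

lemma A0_nonempty (u v : E m) : (A0 u v).Nonempty := by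
  refine ⟨WithLp.toLp 2 (fun _ => 1 / 2), Or.inl ⟨fun i => ?_, fun h => ?_, fun h => ?_⟩⟩
  · norm_num
  · have := (H1b_coord h).1
    norm_num at this
  · have := (H2b_coord h).1
    norm_num at this

lemma AA_bounded (u v : E m) : Bornology.IsBounded (AA u v) := by
  have h1 : Bornology.IsBounded (cubeC m) := by
    refine isBounded_iff_forall_norm_le.mpr ⟨Real.sqrt (m + 2), fun x hx => ?_⟩
    rw [EuclideanSpace.norm_eq]
    apply Real.sqrt_le_sqrt
    have : ∑ i : Fin (m + 2), ‖x i‖ ^ 2 ≤ ∑ i : Fin (m + 2), (1 : ℝ) := by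
      apply Finset.sum_le_sum
      intro i _
      rw [Real.norm_eq_abs, sq_abs]
      have := hx i
      nlinarith [this.1, this.2]
    simpa using this
  have h2 : ∀ (w : E m) (c : E m) (r : ℝ), Bornology.IsBounded {y : E m | y + w ∈ hbar c r} := by
    intro w c r
    have : {y : E m | y + w ∈ hbar c r} ⊆ closedBall (c - w) r := by
      intro y hy
      have := hy.1
      rw [mem_closedBall, dist_eq_norm] at this ⊢
      rwa [show y - (c - w) = y + w - c by abel]
    exact isBounded_closedBall.subset this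
  have h3 : AA u v ⊆ cubeC m ∪ ({y : E m | y + u ∈ hbar (c1 m) r1} ∪
      {y : E m | y + v ∈ hbar (c2 m) (r2 m)}) := by
    rintro x (hx | hx | hx)
    · exact Or.inl hx.1
    · exact Or.inr (Or.inl hx)
    · exact Or.inr (Or.inr hx)
  exact (h1.union ((h2 _ _ _).union (h2 _ _ _))).subset h3

lemma isCompact_AA (u v : E m) : IsCompact (AA u v) :=
  Metric.isCompact_of_isClosed_isBounded (isClosed_AA u v) (AA_bounded u v)

lemma closure_interior_AA (u v : E m) : closure (interior (AA u v)) = AA u v := by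
  refine Subset.antisymm (closure_minimal interior_subset (isClosed_AA u v)) ?_
  rw [← closure_A0 u v]
  refine closure_mono ?_
  refine (isOpen_A0 u v).subset_interior_iff.mpr subset_closure

end Pool.Agent.H58.Heesch
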