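import Mathlib
import Pool.Agent.H58.Heesch.Tile

set_option autoImplicit false

namespace Pool.Agent.H58.Heesch

open Metric Set

variable {m : ℕ}

lemma convex_coord_lt (i : Fin (m + 2)) (a : ℝ) : Convex ℝ {x : E m | x i < a} := by
  intro x hx y hy s t hs ht hst
  simp only [mem_ofPred_eq] at hx hy ⊢
  have h : (s • x + t • y) i = s * x i + t * y i := by simp
  rw [h]
  have ht' : t = 1 - s := by linarith
  subst ht'
  rcases eq_or_lt_of_le hs with h | h
  · rw [← h]; linarith
  · nlinarith [mul_lt_mul_of_pos_left hx h, mul_le_mul_of_nonneg_left hy.le ht]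

lemma convex_lt_coord (i : Fin (m + 2)) (a : ℝ) : Convex ℝ {x : E m | a < x i} := by
  intro x hx y hy s t hs ht hst
  simp only [mem_ofPred_eq] at hx hy ⊢
  have h : (s • x + t • y) i = s * x i + t * y i := by simp
  rw [h]
  have ht' : t = 1 - s := by linarith
  subst ht'
  rcases eq_or_lt_of_le hs with h | h
  · rw [← h]; linarith
  · nlinarith [mul_lt_mul_of_pos_left hx h, mul_le_mul_of_nonneg_left hy.le ht]

lemma convex_cubeO : Convex ℝ (cubeO m) := by
  have : cubeO m = ⋂ i, ({x : E m | 0 < x i} ∩ {x : E m | x i < 1}) := by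
    ext x; simp [cubeO]
  rw [this]
  exact convex_iInter fun i => (convex_lt_coord i 0).inter (convex_coord_lt i 1)

lemma convex_inner_lt (ν c : E m) (a : ℝ) : Convex ℝ {x : E m | a < inner ℝ ν (x - c)} := by
  intro x hx y hy s t hs ht hst
  simp only [mem_ofPred_eq] at hx hy ⊢
  have h : inner ℝ ν (s • x + t • y - c) = s * inner ℝ ν (x - c) + t * inner ℝ ν (y - c) := by
    have h1 : s • x + t • y - c = s • (x - c) + t • (y - c) := by
      have : t = 1 - s := by linarith
      subst this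
      module
    rw [h1, inner_add_right, inner_smul_right, inner_smul_right]
  rw [h]
  have ht' : t = 1 - s := by linarith
  subst ht'
  rcases eq_or_lt_of_le hs with h | h
  · rw [← h]; linarith
  · nlinarith [mul_lt_mul_of_pos_left hx h, mul_le_mul_of_nonneg_left hy.le ht]

/-- the convex piece cut off by a tangent half space of the hole -/
lemma piece_tangent (c : E m) (r a b : ℝ) (hr : 0 < r) (hr' : r < 1 / 32)
    (hc : ∀ i, 1 / 4 ≤ c i ∧ c i ≤ 3 / 4) (ha : a ≤ c 0 - 1 / 4) (hb : c 0 + 1 / 4 ≤ b)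
    {x : E m} (hx : x ∈ cubeO m) (hxa : a < x 0) (hxb : x 0 < b) (hxr : r < ‖x - c‖) :
    ∃ K : Set (E m), Convex ℝ K ∧ x ∈ K ∧
      (∀ y ∈ K, y ∈ cubeO m ∧ a < y 0 ∧ y 0 < b ∧ r < ‖y - c‖) ∧
      ∃ q, ball q (1 / 32) ⊆ K := by
  set ν := (‖x - c‖)⁻¹ • (x - c) with hν
  have hpos : 0 < ‖x - c‖ := lt_trans hr hxr
  have hνn : ‖ν‖ = 1 := by
    rw [hν, norm_smul, norm_inv, norm_norm, inv_mul_cancel₀ hpos.ne']
  refine ⟨cubeO m ∩ ({y | a < y 0} ∩ ({y | y 0 < b} ∩ {y | r < inner ℝ ν (y - c)})), ?_, ?_, ?_, ?_⟩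
  · exact convex_cubeO.inter ((convex_lt_coord 0 a).inter ((convex_coord_lt 0 b).inter
      (convex_inner_lt ν c r)))
  · refine ⟨hx, hxa, hxb, ?_⟩
    simp only [mem_ofPred_eq]
    rw [hν, inner_smul_left, real_inner_self_eq_norm_sq]
    simp only [conj_trivial]
    rw [sq, ← mul_assoc, inv_mul_cancel₀ hpos.ne', one_mul]
    exact hxr
  · rintro y ⟨h1, h2, h3, h4⟩
    refine ⟨h1, h2, h3, lt_of_lt_of_le (show r < inner ℝ ν (y - c) from h4) ?_⟩
    have := real_inner_le_norm ν (y - c)
    rwa [hνn, one_mul] at this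
  · refine ⟨c + (1 / 16 : ℝ) • ν, fun y hy => ?_⟩
    have hy1 : ‖y - (c + (1 / 16 : ℝ) • ν)‖ < 1 / 32 := by
      rwa [mem_ball, dist_eq_norm] at hy
    have hy2 : ‖y - c‖ < 3 / 32 := by
      have : y - c = (y - (c + (1 / 16 : ℝ) • ν)) + (1 / 16 : ℝ) • ν := by abel
      rw [this]
      refine lt_of_le_of_lt (norm_add_le _ _) ?_
      rw [norm_smul, hνn]
      have : ‖(1 / 16 : ℝ)‖ = 1 / 16 := by norm_num
      rw [this]
      linarith
    have hco : ∀ i, |y i - c i| < 3 / 32 := by
      intro i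
      have := PiLp.norm_apply_le (y - c) i
      rw [PiLp.sub_apply, Real.norm_eq_abs] at this
      exact lt_of_le_of_lt this hy2
    refine ⟨fun i => ?_, ?_, ?_, ?_⟩
    · have h1 := abs_lt.mp (hco i)
      have h2 := hc i
      constructor <;> linarith [h1.1, h1.2, h2.1, h2.2]
    · have h1 := abs_lt.mp (hco 0)
      simp only [mem_ofPred_eq]
      linarith [h1.1]
    · have h1 := abs_lt.mp (hco 0)
      simp only [mem_ofPred_eq]
      linarith [h1.2]
    · simp only [mem_ofPred_eq]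
      have h1 : inner ℝ ν (y - c) = inner ℝ ν (y - (c + (1 / 16 : ℝ) • ν)) + 1 / 16 := by
        have : y - c = (y - (c + (1 / 16 : ℝ) • ν)) + (1 / 16 : ℝ) • ν := by abel
        rw [this, inner_add_right, inner_smul_right, real_inner_self_eq_norm_sq, hνn]
        norm_num
      have h2 := abs_le.mp (abs_real_inner_le_norm ν (y - (c + (1 / 16 : ℝ) • ν)))
      rw [hνn, one_mul] at h2
      rw [h1]
      linarith [h2.1]

/-- Every point of the main part lies in a convex subset of the main part that contains a ball of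
radius `1/32`. -/
lemma piece_S0 {x : E m} (hx : x ∈ S0 m) :
    ∃ K : Set (E m), Convex ℝ K ∧ x ∈ K ∧ K ⊆ S0 m ∧ ∃ q, ball q (1 / 32) ⊆ K := by
  obtain ⟨hxc, hx1, hx2⟩ := hx
  rcases lt_or_ge (x 0) (1 / 4) with h0 | h0
  · refine ⟨cubeO m ∩ {y | y 0 < 1 / 4}, convex_cubeO.inter (convex_coord_lt 0 _), ⟨hxc, h0⟩,
      ?_, ?_⟩
    · rintro y ⟨hy1, hy2⟩
      have hy2' : y 0 < 1 / 4 := hy2
      refine ⟨hy1, fun h => ?_, fun h => ?_⟩
      · have := (H1b_coord h).2.1; linarith
      · have := (H2b_coord h).1; linarith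
    · refine ⟨WithLp.toLp 2 (fun i => if i = 0 then 1 / 8 else 1 / 2), fun y hy => ?_⟩
      have hco : ∀ i, |y i - (if i = 0 then 1 / 8 else 1 / 2 : ℝ)| ≤ 1 / 32 := by
        intro i
        exact coord_le (ball_subset_closedBall hy) i
      refine ⟨fun i => ?_, ?_⟩
      · have h1 := abs_le.mp (hco i)
        split_ifs at h1 <;> constructor <;> linarith [h1.1, h1.2]
      · have h1 := abs_le.mp (hco 0)
        simp only [if_true] at h1
        simp only [mem_ofPred_eq]
        linarith [h1.2]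
  rcases lt_or_ge (x 0) (1 / 2) with h1 | h1
  · have hn : r1 < ‖x - c1 m‖ := by
      by_contra hcon
      apply hx1
      refine ⟨?_, ?_⟩
      · rw [mem_closedBall, dist_eq_norm]; exact not_lt.mp hcon
      · simp only [mem_ofPred_eq, c1_zero]; exact h0
    obtain ⟨K, hK1, hK2, hK3, hK4⟩ := piece_tangent (c1 m) r1 0 (1 / 2) r1_pos
      (by unfold r1; norm_num) (fun i => by
        by_cases hi : i = 0
        · subst hi; rw [c1_zero]; norm_num
        · rw [c1_ne hi]; norm_num) (by rw [c1_zero]; norm_num) (by rw [c1_zero]; norm_num)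
      hxc (by linarith) h1 hn
    refine ⟨K, hK1, hK2, fun y hy => ?_, hK4⟩
    obtain ⟨a1, a2, a3, a4⟩ := hK3 y hy
    refine ⟨a1, fun h => ?_, fun h => ?_⟩
    · have := h.1
      rw [mem_closedBall, dist_eq_norm] at this
      linarith
    · have := (H2b_coord h).1; linarith
  rcases lt_or_ge (x 0) (3 / 4) with h2 | h2
  · refine ⟨cubeO m ∩ ({y | 3 / 8 < y 0} ∩ {y | y 0 < 3 / 4}),
      convex_cubeO.inter ((convex_lt_coord 0 _).inter (convex_coord_lt 0 _)),
      ⟨hxc, by simp only [mem_ofPred_eq]; linarith, h2⟩, ?_, ?_⟩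
    · rintro y ⟨hy1, hy2, hy3⟩
      have hy2' : 3 / 8 < y 0 := hy2
      have hy3' : y 0 < 3 / 4 := hy3
      refine ⟨hy1, fun h => ?_, fun h => ?_⟩
      · have := (H1b_coord h).1; linarith
      · have := (H2b_coord h).1; linarith
    · refine ⟨WithLp.toLp 2 (fun i => if i = 0 then 9 / 16 else 1 / 2), fun y hy => ?_⟩
      have hco : ∀ i, |y i - (if i = 0 then 9 / 16 else 1 / 2 : ℝ)| ≤ 1 / 32 := by
        intro i
        exact coord_le (ball_subset_closedBall hy) i
      have h1 := abs_le.mp (hco 0)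
      simp only [if_true] at h1
      refine ⟨fun i => ?_, ?_, ?_⟩
      · have h1 := abs_le.mp (hco i)
        split_ifs at h1 <;> constructor <;> linarith [h1.1, h1.2]
      · simp only [mem_ofPred_eq]
        linarith [h1.1]
      · simp only [mem_ofPred_eq]
        linarith [h1.2]
  · have hn : r2 m < ‖x - c2 m‖ := by
      by_contra hcon
      apply hx2
      refine ⟨?_, ?_⟩
      · rw [mem_closedBall, dist_eq_norm]; exact not_lt.mp hcon
      · simp only [mem_ofPred_eq, c2_zero]; exact h2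
    obtain ⟨K, hK1, hK2, hK3, hK4⟩ := piece_tangent (c2 m) (r2 m) (1 / 2) 1 r2_pos
      r2_lt (fun i => by
        by_cases hi : i = 0
        · subst hi; rw [c2_zero]; norm_num
        · rw [c2_ne hi]; norm_num) (by rw [c2_zero]; norm_num) (by rw [c2_zero]; norm_num)
      hxc (by linarith) (hxc 0).2 hn
    refine ⟨K, hK1, hK2, fun y hy => ?_, hK4⟩
    obtain ⟨a1, a2, a3, a4⟩ := hK3 y hy
    refine ⟨a1, fun h => ?_, fun h => ?_⟩
    · have := (H1b_coord h).1; linarith
    · have := h.1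
      rw [mem_closedBall, dist_eq_norm] at this
      linarith

end Pool.Agent.H58.Heesch
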