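import Mathlib
import Pool.Agent.H58.Heesch.Pieces
import Pool.Agent.H58.Heesch.Defs

set_option autoImplicit false

namespace Pool.Agent.H58.Heesch

open Metric Set MeasureTheory
open scoped Pointwise

variable {m : ℕ}

lemma isometry_add (h : E m ≃ᵢ E m) (x y : E m) :
    h (x + y) = h x + h.toRealLinearIsometryEquiv y := by
  rw [IsometryEquiv.toRealLinearIsometryEquiv_apply]
  have hLa : ∀ x, h x = h.toRealLinearIsometryEquiv x + h 0 := by
    intro x
    rw [IsometryEquiv.toRealLinearIsometryEquiv_apply]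
    abel
  rw [hLa (x + y), hLa x, map_add, hLa y]
  abel

/-- a set inside a hole contains no ball of radius `1/32` -/
lemma notbig {f : E m ≃ᵢ E m} {K : Set (E m)} {q c : E m} {r : ℝ} (hr : r < 1 / 32) (hr0 : 0 < r)
    (hq : ball q (1 / 32) ⊆ K) (hK : ∀ x ∈ K, f x ∈ hop c r) : False := by
  set t := (r + 1 / 32) / 2 with ht
  have ht1 : r < t := by rw [ht]; linarith
  have ht2 : t < 1 / 32 := by rw [ht]; linarith
  have h1 : q + t • e1 m ∈ K := by
    apply hq
    rw [mem_ball, dist_eq_norm, show q + t • e1 m - q = t • e1 m by abel, norm_smul, norm_e1,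
      Real.norm_eq_abs, abs_of_pos (by linarith)]
    linarith
  have h2 : q + (-t) • e1 m ∈ K := by
    apply hq
    rw [mem_ball, dist_eq_norm, show q + (-t) • e1 m - q = (-t) • e1 m by abel, norm_smul, norm_e1,
      Real.norm_eq_abs, abs_neg, abs_of_pos (by linarith)]
    linarith
  have h3 := ball_subset_closedBall (hK _ h1).1
  have h4 := ball_subset_closedBall (hK _ h2).1
  rw [isometry_add, map_smul] at h3 h4
  rw [neg_smul, ← sub_eq_add_neg] at h4
  have h5 := two_points (by rw [LinearIsometryEquiv.norm_map, norm_e1]) h3 h4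
  nlinarith [sq_nonneg ‖f q - c‖]

/-- an isometric copy of a half ball of radius `s` does not fit in a half ball of radius `r < s` -/
lemma notfit {f : E m ≃ᵢ E m} {w c c' : E m} {r s : ℝ} (hr0 : 0 < r) (hrs : r < s)
    (hK : ∀ x, x + w ∈ hop c' s → f x ∈ closedBall c r) : False := by
  have hcl : ∀ x, x + w ∈ hbar c' s → f x ∈ closedBall c r := by
    intro x hx
    have h1 : x ∈ closure {y : E m | y + w ∈ hop c' s} := by
      have h1 : x + w ∈ closure (hop c' s) := hbar_subset_closure c' (by linarith) hx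
      have h2 : {y : E m | y + w ∈ hop c' s} = (Homeomorph.addRight w) ⁻¹' (hop c' s) := rfl
      rw [h2, ← Homeomorph.preimage_closure]
      exact h1
    have h2 : f x ∈ closure (f '' {y : E m | y + w ∈ hop c' s}) :=
      image_closure_subset_closure_image f.continuous ⟨x, h1, rfl⟩
    refine closure_minimal ?_ isClosed_closedBall h2
    rintro _ ⟨y, hy, rfl⟩
    exact hK y hy
  have h1 : (c' - w) + s • e1 m + w ∈ hbar c' s := by
    rw [show (c' - w) + s • e1 m + w = c' + s • e1 m by abel]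
    constructor
    · rw [mem_closedBall, dist_eq_norm, show c' + s • e1 m - c' = s • e1 m by abel, norm_smul,
        norm_e1, Real.norm_eq_abs, abs_of_pos (by linarith), mul_one]
    · simp [e1_zero]
  have h2 : (c' - w) + (-s) • e1 m + w ∈ hbar c' s := by
    rw [show (c' - w) + (-s) • e1 m + w = c' + (-s) • e1 m by abel]
    constructor
    · rw [mem_closedBall, dist_eq_norm, show c' + (-s) • e1 m - c' = (-s) • e1 m by abel, norm_smul,
        norm_e1, Real.norm_eq_abs, abs_neg, abs_of_pos (by linarith), mul_one]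
    · simp [e1_zero]
  have h3 := hcl _ h1
  have h4 := hcl _ h2
  rw [isometry_add, map_smul] at h3 h4
  rw [neg_smul, ← sub_eq_add_neg] at h4
  have h5 := two_points (by rw [LinearIsometryEquiv.norm_map, norm_e1]) h3 h4
  nlinarith [sq_nonneg ‖f (c' - w) - c‖]

/-- the measure used: Hausdorff measure of the dimension of the space -/
noncomputable def mu (m : ℕ) : Measure (E m) := Measure.hausdorffMeasure (Module.finrank ℝ (E m))

noncomputable instance : (mu m).IsAddHaarMeasure := by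
  unfold mu; infer_instance

lemma mu_image (f : E m ≃ᵢ E m) (S : Set (E m)) : mu m (f '' S) = mu m S := by
  unfold mu
  exact f.hausdorffMeasure_image _ _

lemma mu_hop (c : E m) {r : ℝ} (hr : 0 < r) :
    mu m (hop c r) = ENNReal.ofReal (r ^ (m + 2)) * mu m (hop 0 1) := by
  have h1 : hop c r = (fun x => x + (-c)) ⁻¹' (r • hop (0 : E m) 1) := by
    ext x
    rw [mem_preimage, mem_smul_set_iff_inv_smul_mem₀ hr.ne']
    simp only [hop, mem_inter_iff, mem_ball, mem_ofPred_eq, PiLp.smul_apply,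
      PiLp.add_apply, PiLp.neg_apply, PiLp.zero_apply, smul_eq_mul, dist_eq_norm, sub_zero]
    rw [← sub_eq_add_neg, ← sub_eq_add_neg, norm_smul, norm_inv, Real.norm_eq_abs, abs_of_pos hr,
      inv_mul_lt_iff₀ hr, mul_one]
    constructor
    · rintro ⟨h1, h2⟩
      exact ⟨h1, mul_pos (inv_pos.mpr hr) (by linarith)⟩
    · rintro ⟨h1, h2⟩
      refine ⟨h1, ?_⟩
      have := (mul_pos_iff_of_pos_left (inv_pos.mpr hr)).mp h2
      linarith
  rw [h1, measure_preimage_add_right, Measure.addHaar_smul_of_nonneg _ hr.le, finrank_euclideanSpace,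
    Fintype.card_fin]

lemma mu_hop_pos (c : E m) {r : ℝ} (hr : 0 < r) : 0 < mu m (hop c r) := by
  refine (isOpen_hop c r).measure_pos _ ?_
  refine ⟨c + (r / 2) • e0 m, ?_, ?_⟩
  · rw [mem_ball, dist_eq_norm]
    have : c + (r / 2) • e0 m - c = (r / 2) • e0 m := by abel
    rw [this, norm_smul, norm_e0, Real.norm_eq_abs, abs_of_pos (by linarith)]
    linarith
  · simp only [mem_ofPred_eq]
    have : (c + (r / 2) • e0 m) 0 = c 0 + r / 2 := by simp [e0_zero]
    rw [this]
    linarith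

lemma mu_hop_lt_top (c : E m) (r : ℝ) : mu m (hop c r) < ⊤ :=
  lt_of_le_of_lt (measure_mono inter_subset_left) measure_ball_lt_top

/-- two disjoint copies of the small half ball do not fit in the large one -/
lemma notwo {f g : E m ≃ᵢ E m} {w : E m}
    (hf : ∀ x, x + w ∈ H1o m → f x ∈ H2o m) (hg : ∀ x, x + w ∈ H1o m → g x ∈ H2o m)
    (hdisj : ∀ x y, x + w ∈ H1o m → y + w ∈ H1o m → f x ≠ g y) : False := by
  set P : Set (E m) := {x | x + w ∈ H1o m} with hP
  have hPo : IsOpen P := (isOpen_hop _ _).preimage (continuous_addR w)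
  have hPm : mu m P = mu m (H1o m) := by
    have : P = (fun x => x + w) ⁻¹' (H1o m) := rfl
    rw [this, measure_preimage_add_right]
  have h1 : mu m (f '' P) = mu m (H1o m) := by rw [mu_image, hPm]
  have h2 : mu m (g '' P) = mu m (H1o m) := by rw [mu_image, hPm]
  have hd : Disjoint (f '' P) (g '' P) := by
    rw [Set.disjoint_left]
    rintro _ ⟨x, hx, rfl⟩ ⟨y, hy, hxy⟩
    exact hdisj x y hx hy hxy.symm
  have hgm : MeasurableSet (g '' P) := by
    have : IsOpen (g '' P) := g.toHomeomorph.isOpenMap _ hPo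
    exact this.measurableSet
  have h3 : mu m (f '' P) + mu m (g '' P) ≤ mu m (H2o m) := by
    rw [← measure_union hd hgm]
    apply measure_mono
    rintro _ (⟨x, hx, rfl⟩ | ⟨x, hx, rfl⟩)
    · exact hf x hx
    · exact hg x hx
  rw [h1, h2] at h3
  have h4 := mu_hop (c1 m) r1_pos
  have h5 := mu_hop (c2 m) (r2_pos (m := m))
  have h6 : (r2 m) ^ (m + 2) = 3 / 2 * r1 ^ (m + 2) := by
    have : r2 m = lam m * r1 := by unfold r2 r1; ring
    rw [this, mul_pow, lam_pow]
  rw [h6, ENNReal.ofReal_mul (by norm_num), mul_assoc, ← h4] at h5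
  change mu m (hop (c1 m) r1) + mu m (hop (c1 m) r1) ≤ mu m (hop (c2 m) (r2 m)) at h3
  rw [h5] at h3
  have hpos := mu_hop_pos (c1 m) r1_pos
  have hlt := mu_hop_lt_top (c1 m) r1
  set a := mu m (hop (c1 m) r1) with ha
  obtain ⟨b, hb⟩ : ∃ b : ℝ, a = ENNReal.ofReal b ∧ 0 < b := by
    refine ⟨a.toReal, (ENNReal.ofReal_toReal hlt.ne).symm, ENNReal.toReal_pos hpos.ne' hlt.ne⟩
  rw [hb.1, ← ENNReal.ofReal_add hb.2.le hb.2.le, ← ENNReal.ofReal_mul (by norm_num)] at h3
  rw [ENNReal.ofReal_le_ofReal_iff (by linarith [hb.2])] at h3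
  linarith [hb.2]

/-! ### holes -/

lemma mem_AA_of_frontier1 (u v : E m) {x : E m} (hx : x ∈ H1b m) (hx' : x ∉ H1o m) :
    x ∈ AA u v :=
  Or.inl ⟨cubeO_subset (H1b_cubeO hx), hx', fun h => H_disj hx (hop_subset_hbar _ _ h)⟩

lemma mem_AA_of_frontier2 (u v : E m) {x : E m} (hx : x ∈ H2b m) (hx' : x ∉ H2o m) :
    x ∈ AA u v :=
  Or.inl ⟨cubeO_subset (H2b_cubeO hx), fun h => H_disj (hop_subset_hbar _ _ h) hx, hx'⟩

/-- a connected open part of a tile that meets a hole of another tile lies in the hole -/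
lemma hole_piece {u v : E m} {f : E m ≃ᵢ E m} (hd : ∀ x ∈ A0 u v, f x ∉ A0 u v) {c : E m} {r : ℝ}
    (hfr : ∀ x ∈ hbar c r, x ∉ hop c r → x ∈ AA u v) {K : Set (E m)} (hKc : IsPreconnected K)
    (hKA : K ⊆ A0 u v) {x : E m} (hxK : x ∈ K) (hfx : f x ∈ hop c r) :
    ∀ y ∈ K, f y ∈ hop c r := by
  have hfK : IsPreconnected (f '' K) := hKc.image f f.continuous.continuousOn
  have hcov : f '' K ⊆ hop c r ∪ (hbar c r)ᶜ := by
    rintro _ ⟨y, hy, rfl⟩
    by_contra hcon
    simp only [mem_union, mem_compl_iff, not_or, not_not] at hcon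
    have h1 := hfr _ hcon.2 hcon.1
    rw [← closure_A0] at h1
    have hopen : IsOpen (f '' (A0 u v)) := f.toHomeomorph.isOpenMap _ (isOpen_A0 u v)
    have hmem : f y ∈ f '' (A0 u v) := ⟨y, hKA hy, rfl⟩
    obtain ⟨z, hz1, hz2⟩ := mem_closure_iff.mp h1 _ hopen hmem
    obtain ⟨y', hy', rfl⟩ := hz1
    exact hd y' hy' hz2
  intro y hy
  by_contra hcon
  have h2 : (f '' K ∩ hop c r).Nonempty := ⟨f x, ⟨x, hxK, rfl⟩, hfx⟩
  have h3 : (f '' K ∩ (hbar c r)ᶜ).Nonempty := by
    refine ⟨f y, ⟨y, hy, rfl⟩, ?_⟩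
    rcases hcov ⟨y, hy, rfl⟩ with h | h
    · exact absurd h hcon
    · exact h
  obtain ⟨z, -, hz1, hz2⟩ := hfK _ _ (isOpen_hop c r) (isClosed_hbar c r).isOpen_compl hcov h2 h3
  exact hz2 (hop_subset_hbar _ _ hz1)

lemma preconnected_hop (w c : E m) (r : ℝ) : IsPreconnected {y : E m | y + w ∈ hop c r} := by
  have h : {y : E m | y + w ∈ hop c r} = (fun x => x + (-w)) '' hop c r := by
    ext y
    simp only [mem_ofPred_eq, mem_image]
    constructor
    · intro h
      exact ⟨y + w, h, by abel⟩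
    · rintro ⟨x, hx, rfl⟩
      rwa [show x + -w + w = x by abel]
  rw [h]
  exact (convex_hop c r).isPreconnected.image _ (by fun_prop)

lemma S0_sub (u v : E m) {y : E m} (hy : y ∈ S0 m) : y ∈ A0 u v := Or.inl hy

lemma P1_sub (u v : E m) : {y : E m | y + u ∈ hop (c1 m) r1} ⊆ A0 u v := by
  intro y hy
  right; left
  exact hy

lemma P2_sub (u v : E m) : {y : E m | y + v ∈ hop (c2 m) (r2 m)} ⊆ A0 u v := by
  intro y hy
  right; right
  exact hy

lemma hole1_filled {u v : E m} {f : E m ≃ᵢ E m} (hd : ∀ x ∈ A0 u v, f x ∉ A0 u v) {x : E m}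
    (hx : x ∈ A0 u v) (hfx : f x ∈ H1o m) : ∀ y, y + u ∈ H1o m → f y ∈ H1o m := by
  have hfr : ∀ x ∈ H1b m, x ∉ H1o m → x ∈ AA u v := fun x h1 h2 => mem_AA_of_frontier1 u v h1 h2
  rcases hx with hx | hx | hx
  · exfalso
    obtain ⟨K, hK1, hK2, hK3, q, hq⟩ := piece_S0 hx
    exact notbig (by unfold r1; norm_num) r1_pos hq
      (hole_piece hd hfr hK1.isPreconnected (fun y hy => S0_sub u v (hK3 hy)) hK2 hfx)
  · exact hole_piece (K := {y : E m | y + u ∈ hop (c1 m) r1}) hd hfr (preconnected_hop u _ _)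
      (P1_sub u v) (x := x) hx hfx
  · exfalso
    have h := hole_piece (K := {y : E m | y + v ∈ hop (c2 m) (r2 m)}) hd hfr
      (preconnected_hop v _ _) (P2_sub u v) (x := x) hx hfx
    exact notfit (f := f) (w := v) (c := c1 m) (c' := c2 m) r1_pos r1_lt_r2
      (fun y hy => ball_subset_closedBall (h y hy).1)

lemma hole2_cases {u v : E m} {f : E m ≃ᵢ E m} (hd : ∀ x ∈ A0 u v, f x ∉ A0 u v) {x : E m}
    (hx : x ∈ A0 u v) (hfx : f x ∈ H2o m) : (∀ y, y + v ∈ H2o m → f y ∈ H2o m) ∨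
      (x + u ∈ H1o m ∧ ∀ y, y + u ∈ H1o m → f y ∈ H2o m) := by
  have hfr : ∀ x ∈ H2b m, x ∉ H2o m → x ∈ AA u v := fun x h1 h2 => mem_AA_of_frontier2 u v h1 h2
  rcases hx with hx | hx | hx
  · exfalso
    obtain ⟨K, hK1, hK2, hK3, q, hq⟩ := piece_S0 hx
    exact notbig r2_lt r2_pos hq
      (hole_piece hd hfr hK1.isPreconnected (fun y hy => S0_sub u v (hK3 hy)) hK2 hfx)
  · exact Or.inr ⟨hx, hole_piece (K := {y : E m | y + u ∈ hop (c1 m) r1}) hd hfr
      (preconnected_hop u _ _) (P1_sub u v) (x := x) hx hfx⟩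
  · exact Or.inl (hole_piece (K := {y : E m | y + v ∈ hop (c2 m) (r2 m)}) hd hfr
      (preconnected_hop v _ _) (P2_sub u v) (x := x) hx hfx)

/-- conclusion from a filled hole: the filling tile is the translate, on the axis -/
lemma axis_of_fill {w c : E m} {r : ℝ} (hr : 0 < r) {f : E m ≃ᵢ E m}
    (hf : ∀ y, y + w ∈ hop c r → f y ∈ hop c r) (s : ℝ) : f (c + s • e0 m - w) = c + s • e0 m := by
  set h : E m ≃ᵢ E m := (IsometryEquiv.addRight (-w)).trans f with hh
  have hha : ∀ x, h x = f (x - w) := by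
    intro x
    rw [hh, IsometryEquiv.trans_apply, IsometryEquiv.addRight_apply, sub_eq_add_neg]
  have h1 : ∀ x ∈ hbar c r, h x ∈ hbar c r := by
    intro x hx
    have h2 : x ∈ closure (hop c r) := hbar_subset_closure c hr hx
    have h3 : h x ∈ closure (h '' hop c r) :=
      image_closure_subset_closure_image h.continuous ⟨x, h2, rfl⟩
    refine closure_minimal ?_ (isClosed_hbar c r) h3
    rintro _ ⟨y, hy, rfl⟩
    rw [hha]
    exact hop_subset_hbar _ _ (hf _ (by rwa [sub_add_cancel]))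
  have := rigid c hr h h1 s
  rwa [hha] at this

end Pool.Agent.H58.Heesch
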