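import Mathlib
import Pool.Agent.H58.Heesch.NoTile

set_option autoImplicit false

namespace Pool.Agent.H58.Heesch

open Metric Set MeasureTheory

variable {m : ℕ}

lemma A0_not_H1 {u v : E m} (hu : 1 ≤ u 0) (hv : 1 ≤ v 0) {x : E m} (hx : x ∈ A0 u v)
    (h : x ∈ H1o m) : False := by
  have h1 := H1b_coord (hop_subset_hbar _ _ h)
  rcases hx with hx | hx | hx
  · exact hx.2.1 (hop_subset_hbar _ _ h)
  · have h2 := (H1b_coord (hop_subset_hbar _ _ hx)).1
    simp only [PiLp.add_apply] at h2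
    linarith [h1.2.1]
  · have h2 := ((H2b_coord (hop_subset_hbar _ _ hx)).2 0).2
    simp only [PiLp.add_apply] at h2
    linarith [h1.2.1]

lemma A0_not_H2 {u v : E m} (hu : 1 ≤ u 0) (hv : 1 ≤ v 0) {x : E m} (hx : x ∈ A0 u v)
    (h : x ∈ H2o m) : False := by
  have h1 := H2b_coord (hop_subset_hbar _ _ h)
  rcases hx with hx | hx | hx
  · exact hx.2.2 (hop_subset_hbar _ _ h)
  · have h2 := (H1b_coord (hop_subset_hbar _ _ hx)).1
    simp only [PiLp.add_apply] at h2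
    linarith [h1.1]
  · have h2 := ((H2b_coord (hop_subset_hbar _ _ hx)).2 0).2
    simp only [PiLp.add_apply] at h2
    linarith [h1.1]

section
variable {T : Set (Set (E m))} {u v : E m} (hT : IsTiling T) (γ : ∀ Q ∈ T, E m ≃ᵢ E m)
  (hγ : ∀ Q (hQ : Q ∈ T), Q = γ Q hQ '' AA u v)

include hγ in
lemma image_A0_subset {Q : Set (E m)} (hQ : Q ∈ T) : γ Q hQ '' A0 u v ⊆ interior Q := by
  have hopen : IsOpen (γ Q hQ '' (A0 u v)) := (γ Q hQ).toHomeomorph.isOpenMap _ (isOpen_A0 u v)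
  rw [hopen.subset_interior_iff]
  conv_rhs => rw [hγ Q hQ]
  exact image_mono (A0_subset u v)

include hT hγ in
/-- Baire: every nonempty open set meets the open part of a tile -/
lemma exists_tile {O : Set (E m)} (hO : IsOpen O) (hne : O.Nonempty) :
    ∃ (Q : Set (E m)) (hQ : Q ∈ T), ∃ x ∈ A0 u v, γ Q hQ x ∈ O := by
  have hc : Countable T := hT.1.to_subtype
  have hcl : ∀ Q : T, IsClosed (Q : Set (E m)) := by
    intro Q
    rw [hγ Q.1 Q.2]
    exact (γ Q.1 Q.2).toHomeomorph.isClosedMap _ (isClosed_AA u v)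
  have hU : ⋃ Q : T, (Q : Set (E m)) = univ := by
    rw [← sUnion_eq_iUnion]; exact hT.2.2.1
  have hd := dense_iUnion_interior_of_closed hcl hU
  obtain ⟨z, hzO, hz⟩ := hd.exists_mem_open hO hne
  · rw [mem_iUnion] at hzO
    obtain ⟨Q, hQ⟩ := hzO
    have h1 : IsOpen (γ Q.1 Q.2 ⁻¹' (O ∩ interior (Q : Set (E m)))) :=
      (hO.inter isOpen_interior).preimage (γ Q.1 Q.2).continuous
    obtain ⟨y, hy⟩ := (γ Q.1 Q.2).surjective z
    have h2 : y ∈ γ Q.1 Q.2 ⁻¹' (O ∩ interior (Q : Set (E m))) := by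
      rw [mem_preimage, hy]; exact ⟨hz, hQ⟩
    have h3 : y ∈ closure (A0 u v) := by
      rw [closure_A0]
      have h4 : z ∈ (Q : Set (E m)) := interior_subset hQ
      rw [hγ Q.1 Q.2, ← hy] at h4
      obtain ⟨y', hy', hyy⟩ := h4
      rw [← (γ Q.1 Q.2).injective hyy]
      exact hy'
    obtain ⟨x, hx1, hx2⟩ := mem_closure_iff.mp h3 _ h1 h2
    exact ⟨Q.1, Q.2, x, hx2, hx1.1⟩

include hT hγ in
lemma tile_disj {Q Q' : Set (E m)} (hQ : Q ∈ T) (hQ' : Q' ∈ T) (hne : Q ≠ Q') {x y : E m}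
    (hx : x ∈ A0 u v) (hy : y ∈ A0 u v) (h : γ Q hQ x = γ Q' hQ' y) : False := by
  have h1 := image_A0_subset γ hγ hQ ⟨x, hx, rfl⟩
  have h2 := image_A0_subset γ hγ hQ' ⟨y, hy, rfl⟩
  rw [h] at h1
  exact Set.disjoint_left.mp (hT.2.2.2 hQ hQ' hne) h1 h2

include hT hγ in
lemma rel_disj {Q Q' : Set (E m)} (hQ : Q ∈ T) (hQ' : Q' ∈ T) (hne : Q ≠ Q') :
    ∀ x ∈ A0 u v, ((γ Q' hQ').trans (γ Q hQ).symm) x ∉ A0 u v := by
  intro x hx hcon
  refine tile_disj hT γ hγ hQ hQ' hne hcon hx ?_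
  rw [IsometryEquiv.trans_apply, IsometryEquiv.apply_symm_apply]

include hT hγ in
lemma forced1 (hu : 1 ≤ u 0) (hv : 1 ≤ v 0) {Q : Set (E m)} (hQ : Q ∈ T) :
    ∃ (Q' : Set (E m)) (hQ' : Q' ∈ T), ∀ s : ℝ,
      γ Q' hQ' (c1 m + s • e0 m - u) = γ Q hQ (c1 m + s • e0 m) := by
  have hO : IsOpen (γ Q hQ '' H1o m) := (γ Q hQ).toHomeomorph.isOpenMap _ (isOpen_hop _ _)
  have hne : (γ Q hQ '' H1o m).Nonempty := by
    have h := mu_hop_pos (c1 m) r1_pos
    exact (nonempty_of_measure_ne_zero h.ne').image _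
  obtain ⟨Q', hQ', x, hx, hxO⟩ := exists_tile hT γ hγ hO hne
  obtain ⟨y, hy, hyx⟩ := hxO
  have hQQ : Q ≠ Q' := by
    intro h
    subst h
    have := (γ Q hQ).injective hyx
    subst this
    exact A0_not_H1 hu hv hx hy
  set f := (γ Q' hQ').trans (γ Q hQ).symm with hf
  have hfx : f x = y := by
    rw [hf, IsometryEquiv.trans_apply, ← hyx, IsometryEquiv.symm_apply_apply]
  have h1 := hole1_filled (rel_disj hT γ hγ hQ hQ' hQQ) hx (by rw [← hf, hfx]; exact hy)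
  refine ⟨Q', hQ', fun s => ?_⟩
  have h2 := axis_of_fill r1_pos h1 s
  rw [IsometryEquiv.trans_apply] at h2
  rw [← h2, IsometryEquiv.apply_symm_apply]
  rw [h2]

include hT hγ in
lemma forced2 (hu : 1 ≤ u 0) (hv : 1 ≤ v 0) {Q : Set (E m)} (hQ : Q ∈ T) :
    ∃ (Q' : Set (E m)) (hQ' : Q' ∈ T), ∀ s : ℝ,
      γ Q' hQ' (c2 m + s • e0 m - v) = γ Q hQ (c2 m + s • e0 m) := by
  -- conclusion once a tile fills the hole in the right way
  have fin : ∀ (Q' : Set (E m)) (hQ' : Q' ∈ T),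
      (∀ y, y + v ∈ H2o m → ((γ Q' hQ').trans (γ Q hQ).symm) y ∈ H2o m) →
      ∃ (Q' : Set (E m)) (hQ' : Q' ∈ T), ∀ s : ℝ,
      γ Q' hQ' (c2 m + s • e0 m - v) = γ Q hQ (c2 m + s • e0 m) := by
    intro Q' hQ' h1
    refine ⟨Q', hQ', fun s => ?_⟩
    have h2 := axis_of_fill r2_pos h1 s
    rw [IsometryEquiv.trans_apply] at h2
    rw [← h2, IsometryEquiv.apply_symm_apply]
    rw [h2]
  have neQ : ∀ (Q' : Set (E m)) (hQ' : Q' ∈ T) (x y : E m), x ∈ A0 u v → y ∈ H2o m →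
      γ Q hQ y = γ Q' hQ' x → Q ≠ Q' := by
    intro Q' hQ' x y hx hy hyx h
    subst h
    have := (γ Q hQ).injective hyx
    subst this
    exact A0_not_H2 hu hv hx hy
  have hO : IsOpen (γ Q hQ '' H2o m) := (γ Q hQ).toHomeomorph.isOpenMap _ (isOpen_hop _ _)
  have hne : (γ Q hQ '' H2o m).Nonempty := by
    have h := mu_hop_pos (c2 m) (r2_pos (m := m))
    exact (nonempty_of_measure_ne_zero h.ne').image _
  obtain ⟨Q', hQ', x, hx, hxO⟩ := exists_tile hT γ hγ hO hne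
  obtain ⟨y, hy, hyx⟩ := hxO
  have hQQ := neQ Q' hQ' x y hx hy hyx
  set f := (γ Q' hQ').trans (γ Q hQ).symm with hf
  have hfx : f x = y := by
    rw [hf, IsometryEquiv.trans_apply, ← hyx, IsometryEquiv.symm_apply_apply]
  rcases hole2_cases (rel_disj hT γ hγ hQ hQ' hQQ) hx (by rw [← hf, hfx]; exact hy) with h | h
  · exact fin Q' hQ' h
  -- the hole is entered by a small plug: look at the rest of the hole
  obtain ⟨-, hf1⟩ := h
  rw [← hf] at hf1
  set C : Set (E m) := f '' {y : E m | y + u ∈ H1b m} with hC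
  have hCcl : IsClosed C := by
    have h1 : IsClosed {y : E m | y + u ∈ H1b m} :=
      (isClosed_hbar _ _).preimage (continuous_addR u)
    exact f.toHomeomorph.isClosedMap _ h1
  have hO2 : IsOpen (H2o m ∩ Cᶜ) := (isOpen_hop _ _).inter hCcl.isOpen_compl
  have hne2 : (H2o m ∩ Cᶜ).Nonempty := by
    by_contra hcon
    rw [not_nonempty_iff_eq_empty] at hcon
    have hsub : ∀ x, x + (0 : E m) ∈ hop (c2 m) (r2 m) →
        (IsometryEquiv.refl (E m)) x ∈ closedBall (f (c1 m - u)) r1 := by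
      intro x hx
      rw [add_zero] at hx
      have hxC : x ∈ C := by
        by_contra h
        have : x ∈ H2o m ∩ Cᶜ := ⟨hx, h⟩
        rw [hcon] at this
        exact this
      obtain ⟨y, hy, rfl⟩ := hxC
      have h1 : dist y (c1 m - u) ≤ r1 := by
        have := hy.1
        rw [mem_closedBall, dist_eq_norm] at this
        rw [dist_eq_norm, show y - (c1 m - u) = y + u - c1 m by abel]
        exact this
      rw [mem_closedBall]
      change dist (f y) (f (c1 m - u)) ≤ r1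
      rw [f.dist_eq]
      exact h1
    exact notfit r1_pos r1_lt_r2 hsub
  obtain ⟨Q'', hQ'', x2, hx2, hx2O⟩ := exists_tile hT γ hγ
    ((γ Q hQ).toHomeomorph.isOpenMap _ hO2) (hne2.image (γ Q hQ))
  obtain ⟨y2, hy2, hyx2⟩ := hx2O
  have hyx2' : γ Q hQ y2 = γ Q'' hQ'' x2 := hyx2
  have hQQ2 := neQ Q'' hQ'' x2 y2 hx2 hy2.1 hyx2'
  set f2 := (γ Q'' hQ'').trans (γ Q hQ).symm with hf2
  have hfx2 : f2 x2 = y2 := by
    rw [hf2, IsometryEquiv.trans_apply, ← hyx2', IsometryEquiv.symm_apply_apply]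
  rcases hole2_cases (rel_disj hT γ hγ hQ hQ'' hQQ2) hx2 (by rw [← hf2, hfx2]; exact hy2.1) with
    h | h
  · exact fin Q'' hQ'' h
  obtain ⟨h3, hf3⟩ := h
  rw [← hf2] at hf3
  exfalso
  have hQ'Q'' : Q' ≠ Q'' := by
    intro h
    have h5 : γ Q'' hQ'' x2 = γ Q' hQ' x2 := by
      subst h
      rfl
    have h6 : f x2 = y2 := by
      rw [hf, IsometryEquiv.trans_apply, ← h5, ← hyx2', IsometryEquiv.symm_apply_apply]
    have h7 : x2 + u ∈ H1b m := hop_subset_hbar _ _ h3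
    have h8 : y2 ∈ C := by
      rw [← h6]
      exact mem_image_of_mem f h7
    exact hy2.2 h8
  refine notwo hf1 hf3 ?_
  intro a b ha hb hab
  have h4 : γ Q' hQ' a = γ Q'' hQ'' b := by
    have := congrArg (γ Q hQ) hab
    rwa [hf, hf2, IsometryEquiv.trans_apply, IsometryEquiv.trans_apply,
      IsometryEquiv.apply_symm_apply, IsometryEquiv.apply_symm_apply] at this
  exact tile_disj hT γ hγ hQ' hQ'' hQ'Q'' (P1_sub u v ha) (P1_sub u v hb) h4

end

/-- The tile with `u = α e₀`, `v = (N α + 1/2) e₀` is not a prototile. -/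
theorem not_prototile {α : ℝ} {N : ℕ} (hα : 1 ≤ α) (hN : 1 ≤ N) :
    ¬ IsPrototile (AA (α • e0 m) ((N * α + 1 / 2) • e0 m)) := by
  rintro ⟨T, hT, hcong⟩
  choose γ hγ using hcong
  set u : E m := α • e0 m with hu
  set v : E m := (N * α + 1 / 2) • e0 m with hv
  have hN' : (1 : ℝ) ≤ N := by exact_mod_cast hN
  have hu0 : 1 ≤ u 0 := by rw [hu]; simpa [e0_zero] using hα
  have hv0 : 1 ≤ v 0 := by
    rw [hv]
    have : ((N * α + 1 / 2) • e0 m) 0 = N * α + 1 / 2 := by simp [e0_zero]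
    rw [this]
    nlinarith
  -- the axis relation
  have hstep : ∀ (n : ℕ) (Q : Set (E m)) (hQ : Q ∈ T), ∃ (Q' : Set (E m)) (hQ' : Q' ∈ T),
      ∀ s : ℝ, γ Q' hQ' (c1 m + s • e0 m) = γ Q hQ (c1 m + (s + n * α) • e0 m) := by
    intro n
    induction n with
    | zero =>
      intro Q hQ
      exact ⟨Q, hQ, fun s => by simp⟩
    | succ n ih =>
      intro Q hQ
      obtain ⟨Q1, hQ1, h1⟩ := ih Q hQ
      obtain ⟨Q2, hQ2, h2⟩ := forced1 hT γ hγ hu0 hv0 hQ1
      refine ⟨Q2, hQ2, fun s => ?_⟩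
      have h3 := h2 (s + α)
      have h4 : c1 m + (s + α) • e0 m - u = c1 m + s • e0 m := by
        rw [hu]; module
      rw [h4] at h3
      rw [h3, h1]
      congr 2
      push_cast
      ring_nf
  have hne : T.Nonempty := by
    by_contra h
    rw [not_nonempty_iff_eq_empty] at h
    have := hT.2.2.1
    rw [h, sUnion_empty] at this
    exact empty_ne_univ this
  obtain ⟨Q, hQ⟩ := hne
  obtain ⟨Q1, hQ1, h1⟩ := hstep N Q hQ
  obtain ⟨Q2, hQ2, h2⟩ := forced2 hT γ hγ hu0 hv0 hQ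
  have h2' : ∀ s : ℝ, γ Q2 hQ2 (c1 m + s • e0 m) =
      γ Q hQ (c1 m + (s + (N * α + 1 / 2)) • e0 m) := by
    intro s
    have h3 := h2 (s + (N * α + 1 / 2) - 1 / 2)
    have h4 : c2 m + (s + (N * α + 1 / 2) - 1 / 2) • e0 m - v = c1 m + s • e0 m := by
      rw [hv, c2_eq]; module
    have h5 : c2 m + (s + (N * α + 1 / 2) - 1 / 2) • e0 m =
        c1 m + (s + (N * α + 1 / 2)) • e0 m := by
      rw [c2_eq]; module
    rw [h4, h5] at h3
    exact h3
  have h6 : γ Q1 hQ1 (c1 m + (1 / 8 + 1 / 2 : ℝ) • e0 m) =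
      γ Q2 hQ2 (c1 m + (1 / 8 : ℝ) • e0 m) := by
    rw [h1, h2']
    congr 2
    ring_nf
  have hcoord : ∀ (s : ℝ), (c1 m + s • e0 m) 0 = 1 / 4 + s := by
    intro s
    simp [c1_zero, e0_zero]
  have hcoord' : ∀ (s : ℝ) (i : Fin (m + 2)), i ≠ 0 → (c1 m + s • e0 m) i = 1 / 2 := by
    intro s i hi
    have : (e0 m) i = 0 := by simp [e0, hi]
    simp [c1_ne hi, this]
  have hS : ∀ s : ℝ, s = 1 / 8 ∨ s = 1 / 8 + 1 / 2 → c1 m + s • e0 m ∈ A0 u v := by
    intro s hs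
    left
    refine ⟨fun i => ?_, fun h => ?_, fun h => ?_⟩
    · by_cases hi : i = 0
      · subst hi
        rw [hcoord]
        rcases hs with rfl | rfl <;> norm_num
      · rw [hcoord' s i hi]; norm_num
    · have := (H1b_coord h).1
      rw [hcoord] at this
      rcases hs with rfl | rfl <;> norm_num at this
    · have := H2b_coord h
      have h7 := this.1
      have h8 := (this.2 0).2
      rw [hcoord] at h7 h8
      rcases hs with rfl | rfl
      · norm_num at h7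
      · norm_num at h8
  have h7 : Q1 = Q2 := by
    by_contra hne
    exact tile_disj hT γ hγ hQ1 hQ2 hne (hS _ (Or.inr rfl)) (hS _ (Or.inl rfl)) h6
  subst h7
  have h8 := (γ Q1 hQ1).injective h6
  have h9 := congrArg (fun x : E m => x 0) h8
  simp only [hcoord] at h9
  norm_num at h9

end Pool.Agent.H58.Heesch
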