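import Mathlib
import Pool.Agent.H58.Heesch.Tile
import Pool.Agent.H58.Heesch.Defs

set_option autoImplicit false

namespace Pool.Agent.H58.Heesch

open Metric Set

variable {m : ℕ}

/-- indices of the tiles of the patch -/
abbrev Idx (m : ℕ) := (Fin (m + 2) → ℤ) × ℤ × ℤ

noncomputable def al (k : ℕ) : ℝ := 2 * k + 4
def nn (k : ℕ) : ℕ := 2 * k + 2
noncomputable def be (k : ℕ) : ℝ := (nn k : ℝ) * al k + 1 / 2

noncomputable def tv (k : ℕ) (ζ : Idx m) : E m :=
  WithLp.toLp 2 (fun l => (ζ.1 l : ℝ) + if l = 0 then (ζ.2.1 : ℝ) * al k + ζ.2.2 * be k else 0)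

lemma tv_zero (k : ℕ) (ζ : Idx m) :
    (tv k ζ) 0 = (ζ.1 0 : ℝ) + ζ.2.1 * al k + ζ.2.2 * be k := by
  simp [tv]; ring

lemma tv_ne (k : ℕ) (ζ : Idx m) {l : Fin (m + 2)} (hl : l ≠ 0) : (tv k ζ) l = ζ.1 l := by
  simp [tv, hl]

noncomputable abbrev uu (k m : ℕ) : E m := al k • e0 m
noncomputable abbrev vv (k m : ℕ) : E m := be k • e0 m

/-- the key estimate -/
lemma key {k : ℕ} {z i j : ℤ} (hz : |z| ≤ 2 * k + 1) (hi : |i| ≤ 2 * k + 1)
    (hj : |j| ≤ 2 * k + 1) (h : |(z : ℝ) + i * al k + j * be k| ≤ 1) : i = 0 ∧ j = 0 := by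
  have hz' := abs_le.mp hz
  have hi' := abs_le.mp hi
  have hj' := abs_le.mp hj
  have hz1 : (-(2 * k + 1) : ℝ) ≤ z := by exact_mod_cast hz'.1
  have hz2 : (z : ℝ) ≤ 2 * k + 1 := by exact_mod_cast hz'.2
  have hi1 : (-(2 * k + 1) : ℝ) ≤ i := by exact_mod_cast hi'.1
  have hi2 : (i : ℝ) ≤ 2 * k + 1 := by exact_mod_cast hi'.2
  have h' := abs_le.mp h
  have hk : (0 : ℝ) ≤ k := by positivity
  have hbe : be k = (2 * k + 2) * (2 * k + 4) + 1 / 2 := by
    unfold be nn al; push_cast; ring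
  have hal : al k = 2 * k + 4 := rfl
  rw [hbe, hal] at h'
  have hia : (i : ℝ) * (2 * k + 4) ≤ (2 * k + 1) * (2 * k + 4) :=
    mul_le_mul_of_nonneg_right hi2 (by linarith)
  have hib : (-(2 * k + 1) : ℝ) * (2 * k + 4) ≤ (i : ℝ) * (2 * k + 4) :=
    mul_le_mul_of_nonneg_right hi1 (by linarith)
  have hbpos : (0 : ℝ) < (2 * k + 2) * (2 * k + 4) + 1 / 2 := by positivity
  have hj0 : j = 0 := by
    by_contra hne
    rcases lt_or_gt_of_ne hne with hneg | hpos
    · have h1 : (j : ℝ) ≤ -1 := by exact_mod_cast (by omega : j ≤ -1)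
      have h2 : (j : ℝ) * ((2 * k + 2) * (2 * k + 4) + 1 / 2) ≤
          (-1) * ((2 * k + 2) * (2 * k + 4) + 1 / 2) := mul_le_mul_of_nonneg_right h1 hbpos.le
      nlinarith [h'.1]
    · have h1 : (1 : ℝ) ≤ j := by exact_mod_cast (by omega : 1 ≤ j)
      have h2 : 1 * ((2 * k + 2) * (2 * k + 4) + 1 / 2) ≤
          (j : ℝ) * ((2 * k + 2) * (2 * k + 4) + 1 / 2) := mul_le_mul_of_nonneg_right h1 hbpos.le
      nlinarith [h'.2]
  subst hj0
  simp only [Int.cast_zero, zero_mul, add_zero] at h'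
  refine ⟨?_, rfl⟩
  by_contra hne
  rcases lt_or_gt_of_ne hne with hneg | hpos
  · have h1 : (i : ℝ) ≤ -1 := by exact_mod_cast (by omega : i ≤ -1)
    nlinarith [h'.1]
  · have h1 : (1 : ℝ) ≤ i := by exact_mod_cast (by omega : 1 ≤ i)
    nlinarith [h'.2]

def Box (m r : ℕ) : Set (Idx m) := {ζ | (∀ l, |ζ.1 l| ≤ r) ∧ |ζ.2.1| ≤ r ∧ |ζ.2.2| ≤ r}

lemma finite_Box (r : ℕ) : (Box m r).Finite := by
  have h1 : {z : Fin (m + 2) → ℤ | ∀ l, |z l| ≤ r}.Finite := by
    have : {z : Fin (m + 2) → ℤ | ∀ l, |z l| ≤ r} = Set.pi univ (fun _ => Icc (-(r : ℤ)) r) := by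
      ext z
      simp only [mem_ofPred_eq, mem_pi, mem_univ, true_imp_iff, mem_Icc, abs_le]
    rw [this]
    exact Set.Finite.pi fun _ => finite_Icc (-(r : ℤ)) (r : ℤ)
  have h2 : {i : ℤ | |i| ≤ r}.Finite := by
    have : {i : ℤ | |i| ≤ r} = Icc (-(r : ℤ)) r := by
      ext z
      simp only [mem_ofPred_eq, mem_Icc, abs_le]
    rw [this]
    exact finite_Icc _ _
  have h3 : Box m r = {z : Fin (m + 2) → ℤ | ∀ l, |z l| ≤ r} ×ˢ ({i : ℤ | |i| ≤ r} ×ˢ
      {i : ℤ | |i| ≤ r}) := by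
    ext ζ
    simp [Box]
  rw [h3]
  exact h1.prod (h2.prod h2)

/-- the tiles -/
noncomputable def tile (k : ℕ) (ζ : Idx m) : Set (E m) :=
  (IsometryEquiv.addRight (tv k ζ)) '' AA (uu k m) (vv k m)

lemma mem_tile {k : ℕ} {ζ : Idx m} {x : E m} :
    x ∈ tile k ζ ↔ x - tv k ζ ∈ AA (uu k m) (vv k m) := by
  unfold tile
  constructor
  · rintro ⟨y, hy, rfl⟩
    rw [IsometryEquiv.addRight_apply, add_sub_cancel_right]
    exact hy
  · intro h
    exact ⟨x - tv k ζ, h, by rw [IsometryEquiv.addRight_apply, sub_add_cancel]⟩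

/-- slots: every point of the tile is moved into the closed cube by `0`, `u` or `v` -/
lemma slot_closed {k : ℕ} {y : E m} (hy : y ∈ AA (uu k m) (vv k m)) :
    ∃ p q : ℤ, (p = 0 ∨ p = 1) ∧ (q = 0 ∨ q = 1) ∧
      y + ((p : ℝ) * al k + q * be k) • e0 m ∈ cubeC m := by
  rcases hy with hy | hy | hy
  · exact ⟨0, 0, Or.inl rfl, Or.inl rfl, by simpa using hy.1⟩
  · exact ⟨1, 0, Or.inr rfl, Or.inl rfl, by simpa using cubeO_subset (H1b_cubeO hy)⟩
  · exact ⟨0, 1, Or.inl rfl, Or.inr rfl, by simpa using cubeO_subset (H2b_cubeO hy)⟩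

/-- the three disjoint open parts of the cube -/
def part (m : ℕ) (p q : ℤ) : Set (E m) :=
  {y | (p = 0 ∧ q = 0 ∧ y ∈ S0 m) ∨ (p = 1 ∧ q = 0 ∧ y ∈ H1o m) ∨ (p = 0 ∧ q = 1 ∧ y ∈ H2o m)}

lemma part_cubeO {p q : ℤ} {y : E m} (h : y ∈ part m p q) : y ∈ cubeO m := by
  rcases h with ⟨-, -, h⟩ | ⟨-, -, h⟩ | ⟨-, -, h⟩
  · exact h.1
  · exact H1b_cubeO (hop_subset_hbar _ _ h)
  · exact H2b_cubeO (hop_subset_hbar _ _ h)

lemma part_range {p q : ℤ} {y : E m} (h : y ∈ part m p q) : (p = 0 ∨ p = 1) ∧ (q = 0 ∨ q = 1) := by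
  rcases h with ⟨h1, h2, -⟩ | ⟨h1, h2, -⟩ | ⟨h1, h2, -⟩ <;> omega

lemma part_unique {p q p' q' : ℤ} {y : E m} (h : y ∈ part m p q) (h' : y ∈ part m p' q') :
    p = p' ∧ q = q' := by
  rcases h with ⟨h1, h2, h⟩ | ⟨h1, h2, h⟩ | ⟨h1, h2, h⟩ <;>
  rcases h' with ⟨h1', h2', h'⟩ | ⟨h1', h2', h'⟩ | ⟨h1', h2', h'⟩
  · omega
  · exact absurd (hop_subset_hbar _ _ h') h.2.1
  · exact absurd (hop_subset_hbar _ _ h') h.2.2
  · exact absurd (hop_subset_hbar _ _ h) h'.2.1
  · omega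
  · exact (H_disj (hop_subset_hbar _ _ h) (hop_subset_hbar _ _ h')).elim
  · exact absurd (hop_subset_hbar _ _ h) h'.2.2
  · exact (H_disj (hop_subset_hbar _ _ h') (hop_subset_hbar _ _ h)).elim
  · omega

lemma slot_open {k : ℕ} {y : E m} (hy : y ∈ A0 (uu k m) (vv k m)) :
    ∃ p q : ℤ, y + ((p : ℝ) * al k + q * be k) • e0 m ∈ part m p q := by
  rcases hy with hy | hy | hy
  · exact ⟨0, 0, Or.inl ⟨rfl, rfl, by simpa using hy⟩⟩
  · exact ⟨1, 0, Or.inr (Or.inl ⟨rfl, rfl, by simpa using hy⟩)⟩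
  · exact ⟨0, 1, Or.inr (Or.inr ⟨rfl, rfl, by simpa using hy⟩)⟩

lemma e0_ne {l : Fin (m + 2)} (hl : l ≠ 0) : (e0 m) l = 0 := by simp [e0, hl]

/-- touching tiles have neighbouring indices -/
lemma touch {k : ℕ} {ζ ζ' : Idx m} (hζ : ζ ∈ Box m k) (hζ' : ζ' ∈ Box m k)
    (h : (tile k ζ ∩ tile k ζ').Nonempty) :
    (∀ l, |ζ.1 l - ζ'.1 l| ≤ 1) ∧ |ζ.2.1 - ζ'.2.1| ≤ 1 ∧ |ζ.2.2 - ζ'.2.2| ≤ 1 := by
  obtain ⟨x, hx, hx'⟩ := h
  obtain ⟨p, q, hp, hq, hc⟩ := slot_closed (mem_tile.mp hx)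
  obtain ⟨p', q', hp', hq', hc'⟩ := slot_closed (mem_tile.mp hx')
  obtain ⟨hz, hi, hj⟩ := hζ
  obtain ⟨hz', hi', hj'⟩ := hζ'
  have h0 := hc 0
  have h0' := hc' 0
  simp only [PiLp.add_apply, PiLp.sub_apply, PiLp.smul_apply, e0_zero, smul_eq_mul, mul_one,
    tv_zero] at h0 h0'
  have hzz := hz 0
  have hzz' := hz' 0
  rw [abs_le] at hi hi' hj hj' hzz hzz'
  have hkey := key (k := k) (z := ζ.1 0 - ζ'.1 0) (i := (ζ.2.1 - ζ'.2.1) - (p - p'))
    (j := (ζ.2.2 - ζ'.2.2) - (q - q')) (by rw [abs_le]; omega) (by rw [abs_le]; omega)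
    (by rw [abs_le]; omega) (by
      push_cast
      rw [abs_le]
      constructor <;> nlinarith [h0.1, h0.2, h0'.1, h0'.2])
  obtain ⟨hk1, hk2⟩ := hkey
  refine ⟨fun l => ?_, ?_, ?_⟩
  · by_cases hl : l = 0
    · subst hl
      have e1 : (ζ.2.1 : ℝ) - ζ'.2.1 = p - p' := by
        have : ζ.2.1 - ζ'.2.1 = p - p' := by omega
        exact_mod_cast this
      have e2 : (ζ.2.2 : ℝ) - ζ'.2.2 = q - q' := by
        have : ζ.2.2 - ζ'.2.2 = q - q' := by omega
        exact_mod_cast this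
      have e3 : ((ζ.2.1 : ℝ) - ζ'.2.1) * al k = (p - p') * al k := by rw [e1]
      have e4 : ((ζ.2.2 : ℝ) - ζ'.2.2) * be k = (q - q') * be k := by rw [e2]
      have h1 : (ζ.1 0 : ℝ) - ζ'.1 0 ≤ 1 := by linarith [h0.1, h0.2, h0'.1, h0'.2]
      have h2 : (-1 : ℝ) ≤ (ζ.1 0 : ℝ) - ζ'.1 0 := by linarith [h0.1, h0.2, h0'.1, h0'.2]
      rw [abs_le]
      constructor
      · exact_mod_cast h2
      · exact_mod_cast h1
    · have h1 := hc l
      have h1' := hc' l
      simp only [PiLp.add_apply, PiLp.sub_apply, PiLp.smul_apply, e0_ne hl, smul_eq_mul, mul_zero,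
        tv_ne k _ hl, add_zero] at h1 h1'
      have h2 : (ζ.1 l : ℝ) - ζ'.1 l ≤ 1 := by linarith [h1.1, h1.2, h1'.1, h1'.2]
      have h3 : (-1 : ℝ) ≤ (ζ.1 l : ℝ) - ζ'.1 l := by linarith [h1.1, h1.2, h1'.1, h1'.2]
      rw [abs_le]
      constructor
      · exact_mod_cast h3
      · exact_mod_cast h2
  · rw [abs_le]; omega
  · rw [abs_le]; omega

/-- tiles with a common point of their open parts are equal -/
lemma open_unique {k : ℕ} {ζ ζ' : Idx m} (hζ : ζ ∈ Box m k) (hζ' : ζ' ∈ Box m k) {x : E m}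
    (hx : x - tv k ζ ∈ A0 (uu k m) (vv k m)) (hx' : x - tv k ζ' ∈ A0 (uu k m) (vv k m)) :
    ζ = ζ' := by
  obtain ⟨p, q, hc⟩ := slot_open hx
  obtain ⟨p', q', hc'⟩ := slot_open hx'
  obtain ⟨hp, hq⟩ := part_range hc
  obtain ⟨hp', hq'⟩ := part_range hc'
  have hco := part_cubeO hc
  have hco' := part_cubeO hc'
  obtain ⟨hz, hi, hj⟩ := hζ
  obtain ⟨hz', hi', hj'⟩ := hζ'
  have h0 := hco 0
  have h0' := hco' 0
  simp only [PiLp.add_apply, PiLp.sub_apply, PiLp.smul_apply, e0_zero, smul_eq_mul, mul_one,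
    tv_zero] at h0 h0'
  have hzz := hz 0
  have hzz' := hz' 0
  rw [abs_le] at hi hi' hj hj' hzz hzz'
  have hkey := key (k := k) (z := ζ.1 0 - ζ'.1 0) (i := (ζ.2.1 - ζ'.2.1) - (p - p'))
    (j := (ζ.2.2 - ζ'.2.2) - (q - q')) (by rw [abs_le]; omega) (by rw [abs_le]; omega)
    (by rw [abs_le]; omega) (by
      push_cast
      rw [abs_le]
      constructor <;> nlinarith [h0.1, h0.2, h0'.1, h0'.2])
  obtain ⟨hk1, hk2⟩ := hkey
  have e1 : (ζ.2.1 : ℝ) - ζ'.2.1 = p - p' := by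
    have : ζ.2.1 - ζ'.2.1 = p - p' := by omega
    exact_mod_cast this
  have e2 : (ζ.2.2 : ℝ) - ζ'.2.2 = q - q' := by
    have : ζ.2.2 - ζ'.2.2 = q - q' := by omega
    exact_mod_cast this
  have e3 : ((ζ.2.1 : ℝ) - ζ'.2.1) * al k = (p - p') * al k := by rw [e1]
  have e4 : ((ζ.2.2 : ℝ) - ζ'.2.2) * be k = (q - q') * be k := by rw [e2]
  have hzeq : ∀ l, ζ.1 l = ζ'.1 l := by
    intro l
    by_cases hl : l = 0
    · subst hl
      have h1 : (ζ.1 0 : ℝ) - ζ'.1 0 < 1 := by linarith [h0.1, h0.2, h0'.1, h0'.2]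
      have h2 : (-1 : ℝ) < (ζ.1 0 : ℝ) - ζ'.1 0 := by linarith [h0.1, h0.2, h0'.1, h0'.2]
      have h1' : ζ.1 0 - ζ'.1 0 < 1 := by exact_mod_cast h1
      have h2' : -1 < ζ.1 0 - ζ'.1 0 := by exact_mod_cast h2
      omega
    · have h1 := hco l
      have h1' := hco' l
      simp only [PiLp.add_apply, PiLp.sub_apply, PiLp.smul_apply, e0_ne hl, smul_eq_mul, mul_zero,
        tv_ne k _ hl, add_zero] at h1 h1'
      have h2 : (ζ.1 l : ℝ) - ζ'.1 l < 1 := by linarith [h1.1, h1.2, h1'.1, h1'.2]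
      have h3 : (-1 : ℝ) < (ζ.1 l : ℝ) - ζ'.1 l := by linarith [h1.1, h1.2, h1'.1, h1'.2]
      have h2' : ζ.1 l - ζ'.1 l < 1 := by exact_mod_cast h2
      have h3' : -1 < ζ.1 l - ζ'.1 l := by exact_mod_cast h3
      omega
  have hyy : x - tv k ζ + ((p : ℝ) * al k + q * be k) • e0 m =
      x - tv k ζ' + ((p' : ℝ) * al k + q' * be k) • e0 m := by
    ext l
    by_cases hl : l = 0
    · subst hl
      simp only [PiLp.add_apply, PiLp.sub_apply, PiLp.smul_apply, e0_zero, smul_eq_mul, mul_one,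
        tv_zero, hzeq 0]
      linarith
    · simp only [PiLp.add_apply, PiLp.sub_apply, PiLp.smul_apply, e0_ne hl, smul_eq_mul, mul_zero,
        tv_ne k _ hl, add_zero, hzeq l]
  rw [hyy] at hc
  obtain ⟨hpp, hqq⟩ := part_unique hc hc'
  refine Prod.ext (funext hzeq) (Prod.ext ?_ ?_)
  · omega
  · omega

lemma interiors_disjoint {k : ℕ} {ζ ζ' : Idx m} (hζ : ζ ∈ Box m k) (hζ' : ζ' ∈ Box m k)
    (hne : ζ ≠ ζ') : Disjoint (interior (tile k ζ)) (interior (tile k ζ')) := by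
  rw [Set.disjoint_left]
  intro x hx hx'
  -- open set in both tiles
  have hO : IsOpen (interior (tile k ζ) ∩ interior (tile k ζ')) :=
    isOpen_interior.inter isOpen_interior
  have dens : ∀ (ξ : Idx m) (O : Set (E m)), IsOpen O → O ⊆ tile k ξ → O.Nonempty →
      ∃ y ∈ O, y - tv k ξ ∈ A0 (uu k m) (vv k m) := by
    intro ξ O hO hsub hne
    obtain ⟨y, hy⟩ := hne
    have h1 : y - tv k ξ ∈ closure (A0 (uu k m) (vv k m)) := by
      rw [closure_A0]; exact mem_tile.mp (hsub hy)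
    have h2 : IsOpen {z : E m | z + tv k ξ ∈ O} := hO.preimage (continuous_addR _)
    have h3 : y - tv k ξ ∈ {z : E m | z + tv k ξ ∈ O} := by
      simp only [mem_ofPred_eq, sub_add_cancel]; exact hy
    obtain ⟨z, hz1, hz2⟩ := mem_closure_iff.mp h1 _ h2 h3
    exact ⟨z + tv k ξ, hz1, by rwa [add_sub_cancel_right]⟩
  obtain ⟨y, hy, hy1⟩ := dens ζ _ hO (fun z hz => interior_subset hz.1) ⟨x, hx, hx'⟩
  have hO2 : IsOpen ((interior (tile k ζ) ∩ interior (tile k ζ')) ∩
      {z : E m | z - tv k ζ ∈ A0 (uu k m) (vv k m)}) := by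
    refine hO.inter ?_
    have : Continuous (fun z : E m => z - tv k ζ) := by fun_prop
    exact (isOpen_A0 _ _).preimage this
  obtain ⟨z, hz, hz1⟩ := dens ζ' _ hO2 (fun z hz => interior_subset hz.1.2) ⟨y, hy, hy1⟩
  exact hne (open_unique hζ hζ' hz.2 hz1)

lemma tv_add (k : ℕ) (ζ ζ' : Idx m) : tv k (ζ + ζ') = tv k ζ + tv k ζ' := by
  ext l
  by_cases hl : l = 0
  · subst hl
    rw [PiLp.add_apply, tv_zero, tv_zero, tv_zero]
    simp only [Prod.fst_add, Prod.snd_add, Pi.add_apply, Int.cast_add]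
    ring
  · rw [PiLp.add_apply, tv_ne k _ hl, tv_ne k _ hl, tv_ne k _ hl]
    simp only [Prod.fst_add, Pi.add_apply, Int.cast_add]

/-- the indices of the neighbours -/
def Nb (m : ℕ) : Set (Idx m) :=
  {ν | ((∀ l, |ν.1 l| ≤ 1) ∧ ν.2.1 = 0 ∧ ν.2.2 = 0) ∨
    (ν.1 = 0 ∧ |ν.2.1| = 1 ∧ ν.2.2 = 0) ∨ (ν.1 = 0 ∧ ν.2.1 = 0 ∧ |ν.2.2| = 1)}

lemma tv_u (k : ℕ) (m : ℕ) : tv k ((0, 1, 0) : Idx m) = uu k m := by
  ext l
  by_cases hl : l = 0
  · subst hl
    rw [tv_zero]
    simp [uu, e0_zero]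
  · rw [tv_ne k _ hl]
    simp [uu, e0_ne hl]

lemma tv_v (k : ℕ) (m : ℕ) : tv k ((0, 0, 1) : Idx m) = vv k m := by
  ext l
  by_cases hl : l = 0
  · subst hl
    rw [tv_zero]
    simp [vv, e0_zero]
  · rw [tv_ne k _ hl]
    simp [vv, e0_ne hl]

lemma tv_neg (k : ℕ) (ζ : Idx m) : tv k (-ζ) = - tv k ζ := by
  have h1 := tv_add k ζ (-ζ)
  rw [add_neg_cancel] at h1
  have h2 : tv k (0 : Idx m) = 0 := by
    have := tv_add k (0 : Idx m) 0
    rw [add_zero] at this
    have h3 : tv k (0 : Idx m) + 0 = tv k (0 : Idx m) + tv k 0 := by rw [add_zero]; exact this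
    exact (add_left_cancel h3).symm
  rw [h2] at h1
  exact (neg_eq_of_add_eq_zero_right h1.symm).symm

lemma tv_zero' (k : ℕ) : tv k (0 : Idx m) = 0 := by
  have := tv_add k (0 : Idx m) 0
  rw [add_zero] at this
  have h3 : tv k (0 : Idx m) + 0 = tv k (0 : Idx m) + tv k 0 := by rw [add_zero]; exact this
  exact (add_left_cancel h3).symm

lemma c1_mem_AA (u v : E m) : c1 m ∈ AA u v := by
  refine Or.inl ⟨fun i => ?_, fun h => ?_, fun h => ?_⟩
  · by_cases hi : i = 0
    · subst hi; rw [c1_zero]; norm_num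
    · rw [c1_ne hi]; norm_num
  · have := h.2
    simp only [mem_ofPred_eq, lt_self_iff_false] at this
  · have := (H2b_coord (hop_subset_hbar _ _ h)).1
    rw [c1_zero] at this
    norm_num at this

lemma c2_mem_AA (u v : E m) : c2 m ∈ AA u v := by
  refine Or.inl ⟨fun i => ?_, fun h => ?_, fun h => ?_⟩
  · by_cases hi : i = 0
    · subst hi; rw [c2_zero]; norm_num
    · rw [c2_ne hi]; norm_num
  · have := (H1b_coord (hop_subset_hbar _ _ h)).1
    rw [c2_zero] at this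
    norm_num at this
  · have := h.2
    simp only [mem_ofPred_eq, lt_self_iff_false] at this

lemma c1_mem_H1b : c1 m ∈ H1b m := ⟨mem_closedBall_self r1_pos.le, le_refl ((c1 m) 0)⟩

lemma c2_mem_H2b : c2 m ∈ H2b m := ⟨mem_closedBall_self r2_pos.le, le_refl ((c2 m) 0)⟩

/-- neighbours touch -/
lemma neighbours_touch {k : ℕ} {ν : Idx m} (hν : ν ∈ Nb m) :
    ∃ x : E m, x ∈ AA (uu k m) (vv k m) ∧ x - tv k ν ∈ AA (uu k m) (vv k m) := by
  obtain ⟨z, i, j⟩ := ν
  rcases hν with ⟨h1, h2, h3⟩ | ⟨h1, h2, h3⟩ | ⟨h1, h2, h3⟩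
  · simp only at h1 h2 h3
    subst h2 h3
    -- corner point
    have corner : ∀ x : E m, (∀ l, x l = 0 ∨ x l = 1) → x ∈ AA (uu k m) (vv k m) := by
      intro x hx
      refine Or.inl ⟨fun l => ?_, fun h => ?_, fun h => ?_⟩
      · rcases hx l with h | h <;> rw [h] <;> norm_num
      · have := (H1b_coord (hop_subset_hbar _ _ h)).2.2 0
        rcases hx 0 with h' | h' <;> rw [h'] at this <;> norm_num at this
      · have := (H2b_coord (hop_subset_hbar _ _ h)).2 0
        rcases hx 0 with h' | h' <;> rw [h'] at this <;> norm_num at this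
    refine ⟨WithLp.toLp 2 (fun l => if z l = 1 then 1 else 0), corner _ fun l => ?_,
      corner _ fun l => ?_⟩
    · by_cases h : z l = 1 <;> simp [h]
    · have hz := h1 l
      rw [abs_le] at hz
      have htv : (tv k ((z, 0, 0) : Idx m)) l = z l := by
        by_cases hl : l = 0
        · subst hl; rw [tv_zero]; simp
        · rw [tv_ne k _ hl]
      rw [PiLp.sub_apply, htv]
      have hcases : z l = -1 ∨ z l = 0 ∨ z l = 1 := by omega
      rcases hcases with h | h | h <;> simp [h]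
  · simp only at h1 h2 h3
    subst h1 h3
    have hi : i = 1 ∨ i = -1 := by
      rcases abs_eq (by norm_num : (0 : ℤ) ≤ 1) |>.mp h2 with h | h
      · exact Or.inl h
      · exact Or.inr h
    have hm : c1 m - uu k m ∈ AA (uu k m) (vv k m) := by
      refine Or.inr (Or.inl ?_)
      rw [sub_add_cancel]
      exact c1_mem_H1b
    rcases hi with rfl | rfl
    · exact ⟨c1 m, c1_mem_AA _ _, by rw [tv_u]; exact hm⟩
    · refine ⟨c1 m - uu k m, hm, ?_⟩
      have : ((0, -1, 0) : Idx m) = -((0, 1, 0) : Idx m) := by simp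
      rw [this, tv_neg, tv_u, sub_neg_eq_add, sub_add_cancel]
      exact c1_mem_AA _ _
  · simp only at h1 h2 h3
    subst h1 h2
    have hi : j = 1 ∨ j = -1 := by
      rcases abs_eq (by norm_num : (0 : ℤ) ≤ 1) |>.mp h3 with h | h
      · exact Or.inl h
      · exact Or.inr h
    have hm : c2 m - vv k m ∈ AA (uu k m) (vv k m) := by
      refine Or.inr (Or.inr ?_)
      rw [sub_add_cancel]
      exact c2_mem_H2b
    rcases hi with rfl | rfl
    · exact ⟨c2 m, c2_mem_AA _ _, by rw [tv_v]; exact hm⟩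
    · refine ⟨c2 m - vv k m, hm, ?_⟩
      have : ((0, 0, -1) : Idx m) = -((0, 0, 1) : Idx m) := by simp
      rw [this, tv_neg, tv_v, sub_neg_eq_add, sub_add_cancel]
      exact c2_mem_AA _ _

/-- a neighbourhood of the tile is covered by its neighbours (and itself) -/
lemma nbhd {k : ℕ} {x : E m} (hx : x ∈ AA (uu k m) (vv k m)) :
    ∃ O : Set (E m), IsOpen O ∧ x ∈ O ∧ ∀ y ∈ O, ∃ ν ∈ Nb m, y - tv k ν ∈ AA (uu k m) (vv k m) := by
  have zero_mem : (0 : Idx m) ∈ Nb m := Or.inl ⟨fun l => by simp, rfl, rfl⟩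
  rcases hx with hx | hx | hx
  · refine ⟨{y | ∀ l, -(1 / 8) < y l ∧ y l < 9 / 8}, ?_, ?_, ?_⟩
    · have : {y : E m | ∀ l, -(1 / 8) < y l ∧ y l < 9 / 8} =
          ⋂ l, {y : E m | -(1 / 8) < y l ∧ y l < 9 / 8} := by
        ext y; simp
      rw [this]
      refine isOpen_iInter_of_finite fun l => ?_
      exact (isOpen_lt continuous_const (continuous_coord l)).inter
        (isOpen_lt (continuous_coord l) continuous_const)
    · intro l
      have := hx.1 l
      constructor <;> linarith [this.1, this.2]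
    · intro y hy
      by_cases hyC : y ∈ cubeC m
      · by_cases h1 : y ∈ H1o m
        · refine ⟨(0, 1, 0), Or.inr (Or.inl ⟨rfl, by norm_num, rfl⟩), ?_⟩
          rw [tv_u]
          refine Or.inr (Or.inl ?_)
          rw [sub_add_cancel]
          exact hop_subset_hbar _ _ h1
        · by_cases h2 : y ∈ H2o m
          · refine ⟨(0, 0, 1), Or.inr (Or.inr ⟨rfl, rfl, by norm_num⟩), ?_⟩
            rw [tv_v]
            refine Or.inr (Or.inr ?_)
            rw [sub_add_cancel]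
            exact hop_subset_hbar _ _ h2
          · refine ⟨0, zero_mem, ?_⟩
            rw [tv_zero', sub_zero]
            exact Or.inl ⟨hyC, h1, h2⟩
      · -- shift by the appropriate unit vectors
        set z : Fin (m + 2) → ℤ := fun l => if y l < 0 then -1 else if 1 < y l then 1 else 0 with hz
        have hzl : ∀ l, z l = -1 ∧ y l < 0 ∨ z l = 1 ∧ 1 < y l ∨ z l = 0 ∧ 0 ≤ y l ∧ y l ≤ 1 := by
          intro l
          rw [hz]
          by_cases ha : y l < 0
          · left; simp [ha]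
          · by_cases hb : 1 < y l
            · right; left; simp [ha, hb]
            · right; right; simp [ha, hb]; constructor <;> linarith
        refine ⟨(z, 0, 0), Or.inl ⟨fun l => ?_, rfl, rfl⟩, ?_⟩
        · change |z l| ≤ 1
          rcases hzl l with h | h | h <;> rw [h.1] <;> norm_num
        · have htv : ∀ l, (tv k ((z, 0, 0) : Idx m)) l = z l := by
            intro l
            by_cases hl : l = 0
            · subst hl; rw [tv_zero]; simp
            · rw [tv_ne k _ hl]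
          have hcoord : ∀ l, (y - tv k ((z, 0, 0) : Idx m)) l = y l - z l := by
            intro l; rw [PiLp.sub_apply, htv]
          obtain ⟨l0, hl0⟩ : ∃ l, z l ≠ 0 := by
            by_contra hcon
            push Not at hcon
            apply hyC
            intro l
            rcases hzl l with h | h | h
            · have := hcon l; omega
            · have := hcon l; omega
            · exact h.2
          have hbad : (y - tv k ((z, 0, 0) : Idx m)) l0 < 1 / 8 ∨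
              7 / 8 < (y - tv k ((z, 0, 0) : Idx m)) l0 := by
            rw [hcoord]
            have hyl := hy l0
            rcases hzl l0 with h | h | h
            · right; rw [h.1]; push_cast; linarith [hyl.1]
            · left; rw [h.1]; push_cast; linarith [hyl.2]
            · exact absurd h.1 hl0
          refine Or.inl ⟨fun l => ?_, fun h => ?_, fun h => ?_⟩
          · rw [hcoord]
            have hyl := hy l
            rcases hzl l with h | h | h
            · rw [h.1]; push_cast; constructor <;> linarith [hyl.1, h.2]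
            · rw [h.1]; push_cast; constructor <;> linarith [hyl.2, h.2]
            · rw [h.1]; push_cast; constructor <;> linarith [h.2.1, h.2.2]
          · have := (H1b_coord (hop_subset_hbar _ _ h)).2.2 l0
            rcases hbad with hb | hb <;> linarith [this.1, this.2]
          · have := (H2b_coord (hop_subset_hbar _ _ h)).2 l0
            rcases hbad with hb | hb <;> linarith [this.1, this.2]
  · refine ⟨{y | y + uu k m ∈ cubeO m ∩ (H2b m)ᶜ}, ?_, ?_, ?_⟩
    · exact (isOpen_cubeO.inter (isClosed_hbar _ _).isOpen_compl).preimage (continuous_addR _)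
    · exact ⟨H1b_cubeO hx, fun h => H_disj hx h⟩
    · intro y hy
      by_cases h1 : y + uu k m ∈ H1b m
      · refine ⟨0, zero_mem, ?_⟩
        rw [tv_zero', sub_zero]
        exact Or.inr (Or.inl h1)
      · refine ⟨(0, -1, 0), Or.inr (Or.inl ⟨rfl, by norm_num, rfl⟩), ?_⟩
        have : ((0, -1, 0) : Idx m) = -((0, 1, 0) : Idx m) := by simp
        rw [this, tv_neg, tv_u, sub_neg_eq_add]
        exact Or.inl ⟨cubeO_subset hy.1, fun h => h1 (hop_subset_hbar _ _ h),
          fun h => hy.2 (hop_subset_hbar _ _ h)⟩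
  · refine ⟨{y | y + vv k m ∈ cubeO m ∩ (H1b m)ᶜ}, ?_, ?_, ?_⟩
    · exact (isOpen_cubeO.inter (isClosed_hbar _ _).isOpen_compl).preimage (continuous_addR _)
    · exact ⟨H2b_cubeO hx, fun h => H_disj h hx⟩
    · intro y hy
      by_cases h1 : y + vv k m ∈ H2b m
      · refine ⟨0, zero_mem, ?_⟩
        rw [tv_zero', sub_zero]
        exact Or.inr (Or.inr h1)
      · refine ⟨(0, 0, -1), Or.inr (Or.inr ⟨rfl, rfl, by norm_num⟩), ?_⟩
        have : ((0, 0, -1) : Idx m) = -((0, 0, 1) : Idx m) := by simp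
        rw [this, tv_neg, tv_v, sub_neg_eq_add]
        exact Or.inl ⟨cubeO_subset hy.1, fun h => hy.2 (hop_subset_hbar _ _ h),
          fun h => h1 (hop_subset_hbar _ _ h)⟩

lemma Box_add {r : ℕ} {ζ ν : Idx m} (hζ : ζ ∈ Box m r) (hν : ν ∈ Nb m) :
    ζ + ν ∈ Box m (r + 1) := by
  obtain ⟨h1, h2, h3⟩ := hζ
  have hb : (∀ l, |ν.1 l| ≤ 1) ∧ |ν.2.1| ≤ 1 ∧ |ν.2.2| ≤ 1 := by
    rcases hν with ⟨a, b, c⟩ | ⟨a, b, c⟩ | ⟨a, b, c⟩
    · exact ⟨a, by rw [b]; norm_num, by rw [c]; norm_num⟩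
    · exact ⟨fun l => by rw [a]; simp, by rw [b], by rw [c]; norm_num⟩
    · exact ⟨fun l => by rw [a]; simp, by rw [b]; norm_num, by rw [c]⟩
  obtain ⟨h4, h5, h6⟩ := hb
  rw [abs_le] at h2 h3 h5 h6
  refine ⟨fun l => ?_, ?_, ?_⟩
  · have h7 := abs_le.mp (h1 l)
    have h8 := abs_le.mp (h4 l)
    rw [Prod.fst_add, Pi.add_apply, abs_le]
    push_cast
    constructor <;> linarith [h7.1, h7.2, h8.1, h8.2]
  · rw [Prod.snd_add, Prod.fst_add, abs_le]
    push_cast
    constructor <;> linarith [h2.1, h2.2, h5.1, h5.2]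
  · rw [Prod.snd_add, Prod.snd_add, abs_le]
    push_cast
    constructor <;> linarith [h3.1, h3.2, h6.1, h6.2]

lemma Box_mono {r s : ℕ} (h : r ≤ s) : Box m r ⊆ Box m s := by
  rintro ζ ⟨h1, h2, h3⟩
  have : (r : ℤ) ≤ s := by exact_mod_cast h
  exact ⟨fun l => (h1 l).trans this, h2.trans this, h3.trans this⟩

lemma tile_zero (k : ℕ) : tile k (0 : Idx m) = AA (uu k m) (vv k m) := by
  ext x
  rw [mem_tile, tv_zero', sub_zero]

theorem surrounded (k : ℕ) : Surrounded k (AA (uu k m) (vv k m)) := by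
  set A := AA (uu k m) (vv k m) with hA
  set P : Set (Set (E m)) := tile k '' (Box m k) with hP
  refine ⟨P, (finite_Box k).image _, ?_, ?_, ?_, ?_⟩
  · rintro Q ⟨ζ, -, rfl⟩
    exact ⟨_, rfl⟩
  · exact ⟨0, ⟨fun l => by simp, by simp, by simp⟩, tile_zero k⟩
  · rintro X ⟨ζ, hζ, rfl⟩ Y ⟨ζ', hζ', rfl⟩ hne
    exact interiors_disjoint hζ hζ' (fun h => hne (by rw [h]))
  · intro j hj1 hjk x hx
    obtain ⟨Q, ⟨n, c, hn, hc0, hcn, hcP, hct⟩, hxQ⟩ := hx
    -- indices along the chain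
    have hidx : ∀ i ≤ n, ∃ ζ ∈ Box m i, ζ ∈ Box m k ∧ c i = tile k ζ := by
      intro i
      induction i with
      | zero =>
        intro _
        refine ⟨0, ⟨fun l => by simp, by simp, by simp⟩, ⟨fun l => by simp, by simp, by simp⟩, ?_⟩
        rw [tile_zero, hc0]
      | succ i ih =>
        intro hi
        obtain ⟨ζ, h1, h2, h3⟩ := ih (by omega)
        obtain ⟨ζ', h4, h5⟩ := hcP (i + 1) hi
        have h6 := hct i (by omega)
        rw [h3, ← h5] at h6
        obtain ⟨h7, h8, h9⟩ := touch h2 h4 h6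
        refine ⟨ζ', ⟨fun l => ?_, ?_, ?_⟩, h4, h5.symm⟩
        · have ha := abs_le.mp (h7 l)
          have hb := abs_le.mp (h1.1 l)
          rw [abs_le]; push_cast; constructor <;> linarith [ha.1, ha.2, hb.1, hb.2]
        · have ha := abs_le.mp h8
          have hb := abs_le.mp h1.2.1
          rw [abs_le]; push_cast; constructor <;> linarith [ha.1, ha.2, hb.1, hb.2]
        · have ha := abs_le.mp h9
          have hb := abs_le.mp h1.2.2
          rw [abs_le]; push_cast; constructor <;> linarith [ha.1, ha.2, hb.1, hb.2]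
    obtain ⟨ζ, h1, h2, h3⟩ := hidx n le_rfl
    rw [hcn] at h3
    subst h3
    have hxA := mem_tile.mp hxQ
    obtain ⟨O, hO1, hO2, hO3⟩ := nbhd hxA
    rw [mem_interior]
    refine ⟨{y | y - tv k ζ ∈ O}, ?_, ?_, ?_⟩
    · intro y hy
      obtain ⟨ν, hν, hyν⟩ := hO3 _ hy
      have hbox : ζ + ν ∈ Box m k := by
        have h4 := Box_add h1 hν
        exact Box_mono (by omega) h4
      refine ⟨tile k (ζ + ν), ?_, ?_⟩
      · refine ⟨n + 1, fun i => if i ≤ n then c i else tile k (ζ + ν), by omega, ?_, ?_, ?_, ?_⟩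
        · simp [hc0]
        · simp
        · intro i _
          by_cases hi : i ≤ n
          · simp only [hi, if_true]; exact hcP i hi
          · simp only [hi, if_false]; exact ⟨_, hbox, rfl⟩
        · intro i hi
          rcases Nat.lt_or_ge i n with h | h
          · have ha : i ≤ n := by omega
            have hb : i + 1 ≤ n := by omega
            simp only [ha, hb, if_true]
            exact hct i h
          · have hi' : i = n := by omega
            subst hi'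
            simp only [le_refl, if_true, Nat.succ_ne_self, show ¬ (i + 1 ≤ i) by omega, if_false]
            rw [hcn]
            obtain ⟨w, hw1, hw2⟩ := neighbours_touch (k := k) hν
            refine ⟨w + tv k ζ, mem_tile.mpr ?_, mem_tile.mpr ?_⟩
            · rwa [add_sub_cancel_right]
            · rw [tv_add, add_comm (tv k ζ), add_sub_add_right_eq_sub]
              exact hw2
      · rw [mem_tile, tv_add, ← sub_sub]
        exact hyν
    · have : Continuous (fun y : E m => y - tv k ζ) := by fun_prop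
      exact hO1.preimage this
    · exact hO2

end Pool.Agent.H58.Heesch
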