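import Mathlib
import Pool.Agent.H58.Heesch.Defs
import Pool.Agent.H58.Heesch.NoTile2
import Pool.Agent.H58.Heesch.Surround

set_option autoImplicit false

namespace Pool.Agent.H58.Heesch

/-- In every dimension `n ≥ 2` there are (not connected) bodies that can be surrounded `k` times but
are not prototiles. -/
theorem heesch_bodies : ∀ n : ℕ, 2 ≤ n → ∀ k : ℕ, ∃ A : Set (EuclideanSpace ℝ (Fin n)),
    IsBody A ∧ Surrounded k A ∧ ¬ IsPrototile A := by
  intro n hn k
  obtain ⟨m, rfl⟩ : ∃ m, n = m + 2 := ⟨n - 2, by omega⟩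
  have hN : 1 ≤ nn k := by unfold nn; omega
  have hal : (1 : ℝ) ≤ al k := by unfold al; have : (0 : ℝ) ≤ k := Nat.cast_nonneg k; linarith
  refine ⟨AA (uu k m) (vv k m), ⟨isCompact_AA _ _, ?_, closure_interior_AA _ _⟩, surrounded k, ?_⟩
  · obtain ⟨x, hx⟩ := A0_nonempty (uu k m) (vv k m)
    exact ⟨x, (isOpen_A0 _ _).subset_interior_iff.mpr (A0_subset _ _) hx⟩
  · exact not_prototile hal hN

end Pool.Agent.H58.Heesch
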